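import Pool.Agent.Lib.MP_1c3690_al.Nil.Few

set_option autoImplicit false

namespace Pool.Agent.SmallVar.Nil

open Submodule Filter

/-- for the primes `q` which do not divide `c`, multiplication by `q` is injective, and it is
surjective only if the module is `c`-power torsion -/
def Good {O : Type} [CommRing O] (c : O) (X : Type) [AddCommGroup X] [Module O X] : Prop :=
  ∀ q : O, Prime q → ¬ q ∣ c → (∀ x : X, q • x = 0 → x = 0) ∧
    ((∀ x : X, ∃ y : X, q • y = x) → ∀ x : X, ∃ k : ℕ, c ^ k • x = 0)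

/-- every finitely generated module is good for some nonzero element -/
def Hall (O R : Type) [CommRing O] [Ring R] [Algebra O R] : Prop :=
  ∀ (X : Type) [AddCommGroup X] [Module O X] [Module R X] [IsScalarTower O R X],
    Module.Finite R X → ∃ c : O, c ≠ 0 ∧ Good c X

/-- modules killed by a prime are Noetherian if they have few submodules -/
def Star (O R : Type) [CommRing O] [Ring R] [Algebra O R] : Prop :=
  ∀ (E : Type) [AddCommGroup E] [Module O E] [Module R E] [IsScalarTower O R E] (q : O),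
    Prime q → (∀ x : E, q • x = 0) → Few2 R E → IsNoetherian R E

section
variable {O : Type} [CommRing O] {R : Type} [Ring R] [Algebra O R]

/-- multiplication by a central element -/
def mulO (R : Type) [Ring R] [Algebra O R] (E : Type) [AddCommGroup E] [Module O E] [Module R E]
    [IsScalarTower O R E] (a : O) : E →ₗ[R] E where
  toFun x := a • x
  map_add' := smul_add a
  map_smul' := fun r x => smul_comm a r x

lemma mulO_apply {E : Type} [AddCommGroup E] [Module O E] [Module R E]
    [IsScalarTower O R E] (a : O) (x : E) : mulO R E a x = a • x := rfl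

lemma indep_of_coprime {E : Type} [AddCommGroup E] [Module O E] [Module R E]
    [IsScalarTower O R E] (h : Few R E) (q c : ℕ → O) (hc : ∀ n, c (n + 1) = c n * q n)
    (hcop : ∀ n, IsCoprime (c n) (q n)) (e : ℕ → E) (he : ∀ n, e n ≠ 0)
    (hq : ∀ n, q n • e n = 0) : False := by
  have hdvd : ∀ n i, i < n → q i ∣ c n := by
    intro n
    induction n with
    | zero => intro i hi; exact absurd hi (Nat.not_lt_zero i)
    | succ n ih =>
      intro i hi
      rw [hc]
      rcases Nat.lt_succ_iff_lt_or_eq.1 hi with h1 | h1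
      · exact Dvd.dvd.mul_right (ih i h1) _
      · rw [h1]; exact dvd_mul_left _ _
  have hkill : ∀ n x, x ∈ span R (e '' {i | i < n}) → c n • x = 0 := by
    intro n x hx
    induction hx using Submodule.span_induction with
    | mem x hx =>
      obtain ⟨i, hi, rfl⟩ := hx
      obtain ⟨d, hd⟩ := hdvd n i hi
      rw [hd, mul_comm, mul_smul, hq, smul_zero]
    | zero => exact smul_zero _
    | add x y _ _ h1 h2 => rw [smul_add, h1, h2, add_zero]
    | smul a x _ h1 => rw [smul_comm, h1, smul_zero]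
  refine h.not_indep e he fun n => ?_
  rw [Submodule.disjoint_def]
  intro x h1 h2
  have h3 := hkill n x h1
  have h4 : q n • x = 0 := by
    obtain ⟨a, rfl⟩ := Submodule.mem_span_singleton.1 h2
    rw [smul_comm, hq, smul_zero]
  obtain ⟨a, b, hab⟩ := hcop n
  rw [← one_smul O x, ← hab, add_smul, mul_smul, mul_smul, h3, h4, smul_zero, smul_zero,
    add_zero]

variable [IsDomain O] [IsPrincipalIdealRing O]

lemma Star.all (hstar : Star O R) (c : O) : c ≠ 0 → ∀ (E : Type) [AddCommGroup E] [Module O E]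
    [Module R E] [IsScalarTower O R E], (∀ x : E, c • x = 0) → Few2 R E → IsNoetherian R E := by
  induction c using UniqueFactorizationMonoid.induction_on_prime with
  | h₁ => intro h; exact absurd rfl h
  | h₂ u hu =>
    intro _ E _ _ _ _ h1 _
    obtain ⟨v, hv⟩ := hu.exists_left_inv
    have : Subsingleton E := ⟨fun a b => by
      rw [← one_smul O a, ← one_smul O b, ← hv, mul_smul, mul_smul, h1, h1]⟩
    infer_instance
  | h₃ a p ha hp ih =>
    intro _ E _ _ _ _ h1 h2
    rw [isNoetherian_iff_submodule_quotient (LinearMap.range (mulO R E a))]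
    constructor
    · refine hstar _ p hp ?_ (h2.of_injective (Submodule.subtype _) (Submodule.injective_subtype _))
      rintro ⟨x, y, rfl⟩
      apply Subtype.ext
      show p • (a • y) = 0
      rw [← mul_smul, h1]
    · refine ih ha _ ?_ (h2.of_surjective (Submodule.mkQ _) (Submodule.mkQ_surjective _))
      intro x
      obtain ⟨y, rfl⟩ := Submodule.mkQ_surjective _ x
      show a • (Submodule.Quotient.mk y) = (0 : E ⧸ LinearMap.range (mulO R E a))
      rw [← Submodule.Quotient.mk_smul, Submodule.Quotient.mk_eq_zero]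
      exact ⟨y, rfl⟩

lemma Star.pow_torsion (hstar : Star O R) (c : O) (hc : c ≠ 0) (E : Type) [AddCommGroup E]
    [Module O E] [Module R E] [IsScalarTower O R E] (h1 : ∀ x : E, ∃ n, c ^ n • x = 0)
    (h2 : Few2 R E) : IsNoetherian R E := by
  obtain ⟨n, hn⟩ := h2.bounded c h1
  exact hstar.all (c ^ n) (pow_ne_zero n hc) E hn h2

lemma Star.torsion [IsNoetherianRing R] (hstar : Star O R) (E : Type) [AddCommGroup E]
    [Module O E] [Module R E] [IsScalarTower O R E] (htor : ∀ x : E, ∃ c : O, c ≠ 0 ∧ c • x = 0)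
    (h2 : Few2 R E) : IsNoetherian R E := by
  obtain ⟨F', hF', hess'⟩ := h2.few.exists_essential
  obtain ⟨r, hr0, hrF⟩ : ∃ r : O, r ≠ 0 ∧ ∀ x ∈ F', r • x = 0 := by
    obtain ⟨s, rfl⟩ := hF'
    have h1 : ∀ s : Finset E, ∃ r : O, r ≠ 0 ∧ ∀ x ∈ s, r • x = 0 := by
      intro s
      classical
      induction s using Finset.induction_on with
      | empty => exact ⟨1, one_ne_zero, by simp⟩
      | insert a s _ ih =>
        obtain ⟨r, hr, hrs⟩ := ih
        obtain ⟨q, hq, hqa⟩ := htor a
        refine ⟨r * q, mul_ne_zero hr hq, fun x hx => ?_⟩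
        rcases Finset.mem_insert.1 hx with rfl | hx
        · rw [mul_smul, hqa, smul_zero]
        · rw [mul_comm, mul_smul, hrs x hx, smul_zero]
    obtain ⟨r, hr, hrs⟩ := h1 s
    refine ⟨r, hr, fun x hx => ?_⟩
    induction hx using Submodule.span_induction with
    | mem x hx => exact hrs x hx
    | zero => exact smul_zero _
    | add x y _ _ h1 h2 => rw [smul_add, h1, h2, add_zero]
    | smul a x _ h1 => rw [smul_comm, h1, smul_zero]
  refine hstar.pow_torsion r hr0 E ?_ h2
  intro y
  have : IsNoetherian R (span R {y}) :=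
    isNoetherian_of_fg_of_noetherian _ (Submodule.fg_span_singleton y)
  obtain ⟨f, hf⟩ : ∃ f : span R {y} →ₗ[R] span R {y}, ∀ x, f x = r • x :=
    ⟨mulO R _ r, fun x => rfl⟩
  have hfn : ∀ (n : ℕ) x, (f ^ n) x = r ^ n • x := by
    intro n
    induction n with
    | zero => intro x; simp
    | succ n ih => intro x; rw [pow_succ, Module.End.mul_apply, hf, ih, ← mul_smul, pow_succ]
  obtain ⟨n, hn1, hn2⟩ :=
    ((Module.End.eventually_disjoint_ker_pow_range_pow f).and (eventually_ge_atTop 1)).exists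
  refine ⟨n, ?_⟩
  by_contra hy
  obtain ⟨z, hz1, hz2, hz3⟩ := hess' _ hy
  obtain ⟨c, rfl⟩ := Submodule.mem_span_singleton.1 hz1
  have hmem : c • y ∈ span R {y} := Submodule.smul_mem _ _ (Submodule.mem_span_singleton_self y)
  apply hz3
  have h1 : (f ^ n) ⟨c • y, hmem⟩ ∈ LinearMap.ker (f ^ n) := by
    rw [LinearMap.mem_ker, hfn, hfn]
    apply Subtype.ext
    show r ^ n • (r ^ n • (c • y)) = 0
    rw [smul_comm (r ^ n) c y]
    obtain ⟨k, rfl⟩ := Nat.exists_eq_add_of_le' hn2
    rw [pow_succ r k, mul_smul, ← pow_succ r k, hrF _ hz2, smul_zero]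
  have h2 := (Submodule.disjoint_def.1 hn1) _ h1 ⟨_, rfl⟩
  rw [hfn] at h2
  have h3 := congrArg Subtype.val h2
  show c • r ^ n • y = 0
  rw [← smul_comm (r ^ n) c y]
  exact h3

/-- the divisibility lemma -/
lemma exists_not_mem_of_hall [IsNoetherianRing R] (hHall : Hall O R)
    (hinf : ∀ c : O, c ≠ 0 → ∃ q, Prime q ∧ ¬ q ∣ c) (E : Type) [AddCommGroup E]
    [Module O E] [Module R E] [IsScalarTower O R E] (h2 : Few R E)
    (hE : ∃ x : E, ∀ c : O, c ≠ 0 → c • x ≠ 0) (C : O) (hC : C ≠ 0) :
    ∃ q : O, Prime q ∧ ¬ q ∣ C ∧ ∃ x : E, ∀ y : E, q • y ≠ x := by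
  by_contra hcon
  push Not at hcon
  obtain ⟨x, hx⟩ := hE
  obtain ⟨c, hc0, hgood⟩ := hHall (span R {x})
    (Module.Finite.iff_fg.2 (Submodule.fg_span_singleton x))
  -- the element is not divisible in the cyclic module
  have hnd : ∀ q : O, Prime q → ¬ q ∣ c → ∀ y ∈ span R {x}, q • y ≠ x := by
    intro q hq hqc y hy hxy
    obtain ⟨-, h3⟩ := hgood q hq hqc
    obtain ⟨k, hk⟩ := h3 (by
      rintro ⟨z, hz⟩
      obtain ⟨r, rfl⟩ := Submodule.mem_span_singleton.1 hz
      refine ⟨⟨r • y, Submodule.smul_mem _ _ hy⟩, Subtype.ext ?_⟩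
      show q • (r • y) = r • x
      rw [smul_comm, hxy]) ⟨x, Submodule.mem_span_singleton_self x⟩
    exact hx (c ^ k) (pow_ne_zero k hc0) (congrArg Subtype.val hk)
  -- a sequence of primes
  let st : ℕ → {d : O // d ≠ 0} := fun n => Nat.rec ⟨c * C, mul_ne_zero hc0 hC⟩
    (fun _ d => ⟨d.1 * (hinf d.1 d.2).choose,
      mul_ne_zero d.2 (hinf d.1 d.2).choose_spec.1.ne_zero⟩) n
  let q : ℕ → O := fun n => (hinf (st n).1 (st n).2).choose
  have hq1 : ∀ n, Prime (q n) := fun n => (hinf (st n).1 (st n).2).choose_spec.1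
  have hq2 : ∀ n, ¬ q n ∣ (st n).1 := fun n => (hinf (st n).1 (st n).2).choose_spec.2
  have hst : ∀ n, (st (n + 1)).1 = (st n).1 * q n := fun n => rfl
  have hst0 : (st 0).1 = c * C := rfl
  have hdv : ∀ n, c * C ∣ (st n).1 := by
    intro n
    induction n with
    | zero => exact dvd_refl _
    | succ n ih => rw [hst]; exact ih.mul_right _
  have hqc : ∀ n, ¬ q n ∣ c := fun n h => hq2 n ((h.mul_right C).trans (hdv n))
  have hqC : ∀ n, ¬ q n ∣ C := fun n h => hq2 n ((h.mul_left c).trans (hdv n))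
  choose e he using fun n => hcon (q n) (hq1 n) (hqC n) x
  refine indep_of_coprime (R := R) (E := E ⧸ span R {x})
    (h2.of_surjective (Submodule.mkQ _) (Submodule.mkQ_surjective _)) q (fun n => (st n).1) hst
    (fun n => (((hq1 n).irreducible.coprime_iff_not_dvd.2 (hq2 n))).symm)
    (fun n => Submodule.Quotient.mk (e n)) ?_ ?_
  · intro n h3
    rw [Submodule.Quotient.mk_eq_zero] at h3
    exact hnd (q n) (hq1 n) (hqc n) (e n) h3 (he n)
  · intro n
    rw [← Submodule.Quotient.mk_smul, he, Submodule.Quotient.mk_eq_zero]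
    exact Submodule.mem_span_singleton_self x

/-- the main step -/
theorem isNoetherian_of_star [IsNoetherianRing R] (hHall : Hall O R) (hstar : Star O R)
    (hinf : ∀ c : O, c ≠ 0 → ∃ q, Prime q ∧ ¬ q ∣ c) (D : Type) [AddCommGroup D]
    [Module O D] [Module R D] [IsScalarTower O R D] (h2 : Few2 R D) : IsNoetherian R D := by
  by_contra hD
  have key : ∀ F : Submodule R D, F.FG → ∀ C : O, C ≠ 0 →
      ∃ q : O, Prime q ∧ ¬ q ∣ C ∧ ∃ x : D, ∀ y : D, x - q • y ∉ F := by
    intro F hF C hC
    have hFN : IsNoetherian R F := isNoetherian_of_fg_of_noetherian F hF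
    have h3 : Few2 R (D ⧸ F) := h2.of_surjective F.mkQ (Submodule.mkQ_surjective F)
    have h4 : ¬ IsNoetherian R (D ⧸ F) := fun h =>
      hD ((isNoetherian_iff_submodule_quotient F).2 ⟨hFN, h⟩)
    have h5 : ∃ x : D ⧸ F, ∀ c : O, c ≠ 0 → c • x ≠ 0 := by
      by_contra hcon
      push Not at hcon
      exact h4 (hstar.torsion (D ⧸ F) hcon h3)
    obtain ⟨q, hq, hqC, x, hx⟩ := exists_not_mem_of_hall hHall hinf (D ⧸ F) h3.few h5 C hC
    obtain ⟨x, rfl⟩ := Submodule.mkQ_surjective F x
    refine ⟨q, hq, hqC, x, fun y hy => hx (Submodule.Quotient.mk y) ?_⟩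
    rw [← Submodule.Quotient.mk_smul]
    show Submodule.Quotient.mk (q • y) = Submodule.Quotient.mk x
    rw [Submodule.Quotient.eq, ← neg_sub]
    exact neg_mem hy
  choose q hq1 hq2 x hx using key
  let st : ℕ → {p : Submodule R D × O // p.1.FG ∧ p.2 ≠ 0} := fun n =>
    Nat.rec ⟨(⊥, 1), Submodule.fg_bot, one_ne_zero⟩
      (fun _ p => ⟨(p.1.1 ⊔ span R {x p.1.1 p.2.1 p.1.2 p.2.2}, p.1.2 * q p.1.1 p.2.1 p.1.2 p.2.2),
        p.2.1.sup (Submodule.fg_span_singleton _), mul_ne_zero p.2.2 (hq1 _ _ _ _).ne_zero⟩) n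
  let F : ℕ → Submodule R D := fun n => (st n).1.1
  let C : ℕ → O := fun n => (st n).1.2
  let y : ℕ → D := fun n => x (st n).1.1 (st n).2.1 (st n).1.2 (st n).2.2
  let p : ℕ → O := fun n => q (st n).1.1 (st n).2.1 (st n).1.2 (st n).2.2
  have hF : ∀ n, F (n + 1) = F n ⊔ span R {y n} := fun n => rfl
  have hC : ∀ n, C (n + 1) = C n * p n := fun n => rfl
  have hp : ∀ n, Prime (p n) := fun n => hq1 _ _ _ _
  have hpC : ∀ n, ¬ p n ∣ C n := fun n => hq2 _ _ _ _
  have hy : ∀ n z, y n - p n • z ∉ F n := fun n z => hx _ _ _ _ z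
  clear_value F C y p
  have hFm : Monotone F := monotone_nat_of_le_succ fun n => by rw [hF]; exact le_sup_left
  have hyF : ∀ n, y n ∈ F (n + 1) := fun n => by
    rw [hF]; exact Submodule.mem_sup_right (Submodule.mem_span_singleton_self _)
  have hCd : ∀ n m, n < m → p n ∣ C m := by
    intro n m hnm
    induction m, hnm using Nat.le_induction with
    | base => rw [hC]; exact dvd_mul_left _ _
    | succ m _ ih => rw [hC]; exact ih.mul_right _
  let U : Submodule R D := ⨆ n, (F n).map (mulO R D (C n))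
  have hU : ∀ m, U ≤ F m ⊔ LinearMap.range (mulO R D (p m)) := by
    intro m
    refine iSup_le fun n => ?_
    rcases Nat.lt_or_ge m n with h | h
    · refine le_trans ?_ le_sup_right
      rintro _ ⟨z, -, rfl⟩
      obtain ⟨d, hd⟩ := hCd m n h
      refine ⟨d • z, ?_⟩
      rw [mulO_apply, mulO_apply, hd, mul_smul]
    · refine le_trans ?_ le_sup_left
      rintro _ ⟨z, hz, rfl⟩
      rw [mulO_apply, ← algebraMap_smul R (C n) z]
      exact Submodule.smul_mem _ _ (hFm h hz)
  refine indep_of_coprime (R := R) (E := D ⧸ U)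
    (h2.few.of_surjective (Submodule.mkQ _) (Submodule.mkQ_surjective _)) p C hC
    (fun n => (((hp n).irreducible.coprime_iff_not_dvd.2 (hpC n))).symm)
    (fun n => Submodule.Quotient.mk (C n • y n)) ?_ ?_
  · intro n h3
    rw [Submodule.Quotient.mk_eq_zero] at h3
    obtain ⟨f, hf, g, ⟨z, rfl⟩, hfg⟩ := Submodule.mem_sup.1 (hU n h3)
    rw [mulO_apply] at hfg
    obtain ⟨a, b, hab⟩ := (((hp n).irreducible.coprime_iff_not_dvd.2 (hpC n))).symm
    apply hy n (a • z + b • y n)
    have h4 : y n = a • (C n • y n) + b • (p n • y n) := by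
      rw [← mul_smul, ← mul_smul, ← add_smul, hab, one_smul]
    have h5 : y n - p n • (a • z + b • y n) = a • f := by
      have h6 : a • (C n • y n) = a • f + a • (p n • z) := by rw [← hfg, smul_add]
      rw [smul_add, smul_comm (p n) a z, smul_comm (p n) b (y n)]
      nth_rewrite 1 [h4]
      rw [h6]
      abel
    rw [h5, ← algebraMap_smul R a f]
    exact Submodule.smul_mem _ _ hf
  · intro n
    rw [← Submodule.Quotient.mk_smul, Submodule.Quotient.mk_eq_zero]
    have h3 : p n • C n • y n = C (n + 1) • y n := by rw [hC, mul_comm, mul_smul]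
    rw [h3]
    exact Submodule.mem_iSup_of_mem (n + 1) ⟨y n, hyF n, rfl⟩

end

end Pool.Agent.SmallVar.Nil
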