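import Mathlib

set_option autoImplicit false

namespace Pool.Agent.SmallVar.Nil

open Submodule Filter

/-- fewer than continuum many submodules -/
def Few (R M : Type*) [Ring R] [AddCommGroup M] [Module R M] : Prop :=
  ¬ ∃ f : Set ℕ → Submodule R M, Function.Injective f

/-- the square of the module has fewer than continuum many submodules -/
def Few2 (R M : Type*) [Ring R] [AddCommGroup M] [Module R M] : Prop := Few R (M × M)

section
variable {R : Type*} [Ring R] {M N : Type*} [AddCommGroup M] [Module R M] [AddCommGroup N]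
  [Module R N]

lemma Few.of_injective (h : Few R N) (f : M →ₗ[R] N) (hf : Function.Injective f) : Few R M := by
  rintro ⟨g, hg⟩
  exact h ⟨fun s => (g s).map f, fun s t hst => hg (Submodule.map_injective_of_injective hf hst)⟩

lemma Few.of_surjective (h : Few R M) (f : M →ₗ[R] N) (hf : Function.Surjective f) : Few R N := by
  rintro ⟨g, hg⟩
  exact h ⟨fun s => (g s).comap f,
    fun s t hst => hg (Submodule.comap_injective_of_surjective hf hst)⟩

lemma Few2.few (h : Few2 R M) : Few R M :=
  Few.of_injective h (LinearMap.inl R M M) LinearMap.inl_injective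

lemma Few2.of_injective (h : Few2 R N) (f : M →ₗ[R] N) (hf : Function.Injective f) : Few2 R M :=
  Few.of_injective h (f.prodMap f) (hf.prodMap hf)

lemma Few2.of_surjective (h : Few2 R M) (f : M →ₗ[R] N) (hf : Function.Surjective f) :
    Few2 R N :=
  Few.of_surjective h (f.prodMap f) (hf.prodMap hf)

/-- no infinite direct sum -/
lemma Few.not_indep (h : Few R M) (x : ℕ → M) (hx : ∀ n, x n ≠ 0)
    (hd : ∀ n, Disjoint (span R (x '' {i | i < n})) (span R {x n})) : False := by
  have ind : iSupIndep (fun i => span R {x i}) := by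
    rw [iSupIndep_iff_finsetSum_eq_zero_imp_eq_zero]
    intro s
    induction s using Finset.induction_on_max with
    | empty => intro v hv _ i hi; simp at hi
    | insert a s ha ih =>
      intro v hv hsum
      have has : a ∉ s := fun h' => lt_irrefl a (ha a h')
      rw [Finset.sum_insert has] at hsum
      have h1 : v a ∈ span R (x '' {i | i < a}) := by
        have : v a = -∑ i ∈ s, v i := eq_neg_of_add_eq_zero_left hsum
        rw [this]
        refine neg_mem (sum_mem fun i hi => ?_)
        have hsub : ({x i} : Set M) ⊆ x '' {i | i < a} :=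
          Set.singleton_subset_iff.2 ⟨i, ha i hi, rfl⟩
        exact span_mono hsub (hv i (Finset.mem_insert_of_mem hi))
      have h2 : v a = 0 :=
        (Submodule.disjoint_def.1 (hd a)) _ h1 (hv a (Finset.mem_insert_self a s))
      rw [h2, zero_add] at hsum
      intro i hi
      rcases Finset.mem_insert.1 hi with rfl | hi
      · exact h2
      · exact ih v (fun j hj => hv j (Finset.mem_insert_of_mem hj)) hsum i hi
  refine h ⟨fun S => ⨆ i ∈ S, span R {x i}, fun S T hST => ?_⟩
  have key : ∀ S T : Set ℕ, (⨆ i ∈ S, span R {x i}) = (⨆ i ∈ T, span R {x i}) → S ⊆ T := by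
    intro S T hST i hi
    by_contra hiT
    have h1 : Disjoint (span R {x i}) (⨆ j ∈ T, span R {x j}) := ind.disjoint_biSup hiT
    have h2 : span R {x i} ≤ ⨆ j ∈ T, span R {x j} := by
      rw [← hST]; exact le_iSup₂_of_le i hi le_rfl
    have h3 : span R {x i} = ⊥ := disjoint_self.1 (h1.mono_right h2)
    exact hx i (Submodule.span_singleton_eq_bot.1 h3)
  exact Set.Subset.antisymm (key _ _ hST) (key _ _ hST.symm)

/-- a finitely generated essential submodule -/
lemma Few.exists_essential (h : Few R M) : ∃ F : Submodule R M, F.FG ∧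
    ∀ y : M, y ≠ 0 → ∃ z ∈ span R {y}, z ∈ F ∧ z ≠ 0 := by
  by_contra hcon
  push Not at hcon
  choose! g hg0 hg using hcon
  let s : ℕ → Submodule R M := fun n => Nat.rec ⊥ (fun _ F => F ⊔ span R {g F}) n
  have hs1 : ∀ n, s (n + 1) = s n ⊔ span R {g (s n)} := fun n => rfl
  have hfg : ∀ n, (s n).FG := by
    intro n
    induction n with
    | zero => exact Submodule.fg_bot
    | succ n ih => rw [hs1]; exact ih.sup (Submodule.fg_span_singleton _)
  have hle : Monotone s := monotone_nat_of_le_succ fun n => by rw [hs1]; exact le_sup_left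
  refine h.not_indep (fun n => g (s n)) (fun n => hg0 _ (hfg n)) (fun n => ?_)
  rw [Submodule.disjoint_def]
  intro z hz1 hz2
  refine hg _ (hfg n) z hz2 ?_
  refine (Submodule.span_le.2 ?_) hz1
  rintro _ ⟨i, hi, rfl⟩
  have h1 : g (s i) ∈ s (i + 1) := by
    rw [hs1]; exact Submodule.mem_sup_right (Submodule.mem_span_singleton_self _)
  exact hle (show i + 1 ≤ n from hi) h1


variable {O : Type*} [CommRing O] [Module O M]

/-- partial sums of a power series with coefficients 0, 1 -/
noncomputable def ps {O : Type*} [CommRing O] (r : O) (S : Set ℕ) (m : ℕ) : O := by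
  classical exact ∑ i ∈ Finset.range m, if i ∈ S then r ^ i else 0

lemma ps_smul_eq (r : O) (S : Set ℕ) {k m : ℕ} (hkm : k ≤ m) {y : M} (hy : r ^ k • y = 0) :
    ps r S m • y = ps r S k • y := by
  classical
  induction m, hkm using Nat.le_induction with
  | base => rfl
  | succ m hm ih =>
    have : ps r S (m + 1) = ps r S m + if m ∈ S then r ^ m else 0 := by
      simp only [ps, Finset.sum_range_succ]
    rw [this, add_smul, ih]
    have h0 : (if m ∈ S then r ^ m else 0) • y = 0 := by
      split_ifs
      · obtain ⟨c, rfl⟩ := Nat.exists_eq_add_of_le hm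
        rw [add_comm, pow_add, mul_smul, hy, smul_zero]
      · exact zero_smul _ _
    rw [h0, add_zero]

/-- the graph of the power series -/
def graph (R : Type*) [Ring R] (M : Type*) [AddCommGroup M] [Module R M] {O : Type*}
    [CommRing O] [Module O M] [SMulCommClass O R M] (r : O) (S : Set ℕ) :
    Submodule R (M × M) where
  carrier := {p | ∀ᶠ m in atTop, p.2 = ps r S m • p.1}
  zero_mem' := by simp
  add_mem' := by
    intro a b ha hb
    filter_upwards [ha, hb] with m h1 h2
    simp only [Prod.snd_add, Prod.fst_add, h1, h2, smul_add]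
  smul_mem' := by
    intro c a ha
    filter_upwards [ha] with m h1
    simp only [Prod.smul_snd, Prod.smul_fst, h1]
    exact (smul_comm _ _ _).symm

lemma Few2.bounded [SMulCommClass O R M] (h : Few2 R M) (r : O) (ht : ∀ x : M, ∃ n, r ^ n • x = 0) :
    ∃ n, ∀ x : M, r ^ n • x = 0 := by
  classical
  by_contra hcon
  push Not at hcon
  have hy : ∀ j : ℕ, ∃ y : M, r ^ j • y ≠ 0 ∧ r ^ (j + 1) • y = 0 := by
    intro j
    obtain ⟨x, hx⟩ := hcon j
    have hn := ht x
    obtain ⟨n, hn1, hn2⟩ : ∃ n, r ^ (n + 1) • x = 0 ∧ r ^ n • x ≠ 0 := by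
      have h0 : Nat.find hn ≠ 0 := by
        intro h0
        have := Nat.find_spec hn
        rw [h0, pow_zero, one_smul] at this
        exact hx (by rw [this, smul_zero])
      obtain ⟨n, hn'⟩ := Nat.exists_eq_succ_of_ne_zero h0
      refine ⟨n, ?_, ?_⟩
      · have := Nat.find_spec hn; rwa [hn'] at this
      · exact Nat.find_min hn (by rw [hn']; exact Nat.lt_succ_self n)
    have hjn : j ≤ n := by
      by_contra hlt
      push Not at hlt
      obtain ⟨c, rfl⟩ := Nat.exists_eq_add_of_lt hlt
      apply hx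
      rw [show n + c + 1 = c + (n + 1) by ring, pow_add, mul_smul, hn1, smul_zero]
    obtain ⟨c, rfl⟩ := Nat.exists_eq_add_of_le hjn
    refine ⟨r ^ c • x, ?_, ?_⟩
    · rwa [← mul_smul, ← pow_add]
    · rwa [← mul_smul, ← pow_add, show j + 1 + c = j + c + 1 by ring]
  refine h ⟨fun S => graph R M r S, fun S T hST => ?_⟩
  by_contra hne
  have hex : ∃ j, ¬ (j ∈ S ↔ j ∈ T) := by
    by_contra hh
    push Not at hh
    exact hne (Set.ext hh)
  obtain ⟨j, hj, hmin⟩ : ∃ j, ¬ (j ∈ S ↔ j ∈ T) ∧ ∀ i < j, (i ∈ S ↔ i ∈ T) :=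
    ⟨Nat.find hex, Nat.find_spec hex, fun i hi => not_not.1 (Nat.find_min hex hi)⟩
  obtain ⟨y, hy1, hy2⟩ := hy j
  have hmem : ∀ U : Set ℕ, ((y, ps r U (j + 1) • y) : M × M) ∈ graph R M r U := by
    intro U
    show ∀ᶠ m in atTop, ps r U (j + 1) • y = ps r U m • y
    filter_upwards [eventually_ge_atTop (j + 1)] with m hm
    exact (ps_smul_eq r U hm hy2).symm
  have h1 := hmem S
  have hST' : graph R M r S = graph R M r T := hST
  rw [hST'] at h1
  have h2 : ∀ᶠ m in atTop, ps r S (j + 1) • y = ps r T m • y := h1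
  obtain ⟨m, hm1, hm2⟩ := (h2.and (eventually_ge_atTop (j + 1))).exists
  rw [ps_smul_eq r T hm2 hy2] at hm1
  have hps : ∀ U : Set ℕ, ps r U (j + 1) = ps r U j + if j ∈ U then r ^ j else 0 := by
    intro U; simp only [ps, Finset.sum_range_succ]
  have heq : ps r S j = ps r T j := by
    simp only [ps]
    refine Finset.sum_congr rfl fun i hi => ?_
    rw [Finset.mem_range] at hi
    simp only [hmin i hi]
  rw [hps, hps, heq, add_smul, add_smul] at hm1
  have h3 := add_left_cancel hm1
  by_cases hjS : j ∈ S
  · have hjT : j ∉ T := fun h' => hj ⟨fun _ => h', fun _ => hjS⟩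
    rw [if_pos hjS, if_neg hjT, zero_smul] at h3
    exact hy1 h3
  · have hjT : j ∈ T := by
      by_contra h'
      exact hj ⟨fun h'' => absurd h'' hjS, fun h'' => absurd h'' h'⟩
    rw [if_neg hjS, if_pos hjT, zero_smul] at h3
    exact hy1 h3.symm

end

end Pool.Agent.SmallVar.Nil
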