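import Pool.Agent.Lib.MP_1c3690_al.Nil.Module2
import Pool.Agent.Lib.MP_1c3690_al.Main

set_option autoImplicit false
set_option linter.unusedSectionVars false

namespace Pool.Agent.SmallVar.Nil

open scoped commutatorElement

section
variable {G : Type} [Group G]

/-- the left-normed commutators of weight `n + 1` in the elements of `s` -/
def comms (s : Set G) : ℕ → Set G
  | 0 => s
  | n + 1 => (fun p : G × G => ⁅p.1, p.2⁆) '' (comms s n ×ˢ s)

lemma comms_finite (s : Set G) (hs : s.Finite) (n : ℕ) : (comms s n).Finite := by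
  induction n with
  | zero => exact hs
  | succ n ih => exact (ih.prod hs).image _

/-- the lower central series of the group -/
abbrev lc (G : Type) [Group G] (n : ℕ) : Subgroup G := (⊤ : Subgroup G).lowerCentralSeries n

lemma comms_mem (s : Set G) (n : ℕ) : comms s n ⊆ lc G n := by
  induction n with
  | zero => intro x _; trivial
  | succ n ih =>
    rintro _ ⟨⟨w, y⟩, ⟨hw, hy⟩, rfl⟩
    exact Subgroup.commutator_mem_commutator (ih hw) (Subgroup.mem_top y)

lemma central_of_gen (s : Set G) (hs : Subgroup.closure s = ⊤) (D : Subgroup G) [D.Normal]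
    (w : G) (hw : ∀ y ∈ s, ⁅w, y⁆ ∈ D) (g : G) : ⁅w, g⁆ ∈ D := by
  have key : ∀ x y : G, ⁅x, y⁆ ∈ D ↔ Commute (x : G ⧸ D) (y : G ⧸ D) := by
    intro x y
    rw [← QuotientGroup.eq_one_iff, ← commutatorElement_eq_one_iff_commute]
    rfl
  have h1 : (⊤ : Subgroup G) ≤ (Subgroup.centralizer {(w : G ⧸ D)}).comap
      (QuotientGroup.mk' D) := by
    rw [← hs, Subgroup.closure_le]
    intro y hy
    show (y : G ⧸ D) ∈ Subgroup.centralizer {(w : G ⧸ D)}
    rw [Subgroup.mem_centralizer_singleton_iff]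
    exact ((key w y).1 (hw y hy)).symm
  have h2 : (g : G ⧸ D) ∈ Subgroup.centralizer {(w : G ⧸ D)} := h1 (Subgroup.mem_top g)
  rw [Subgroup.mem_centralizer_singleton_iff] at h2
  exact (key w g).2 (Commute.symm h2)

/-- the elements which are central modulo a normal subgroup -/
def cenMod (D : Subgroup G) [D.Normal] : Subgroup G :=
  (Subgroup.center (G ⧸ D)).comap (QuotientGroup.mk' D)

instance (D : Subgroup G) [D.Normal] : (cenMod D).Normal := by
  unfold cenMod
  infer_instance

lemma mem_cenMod {D : Subgroup G} [D.Normal] {x : G} : x ∈ cenMod D ↔ ∀ g, ⁅x, g⁆ ∈ D := by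
  have key : ∀ x y : G, ⁅x, y⁆ ∈ D ↔ Commute (x : G ⧸ D) (y : G ⧸ D) := by
    intro x y
    rw [← QuotientGroup.eq_one_iff, ← commutatorElement_eq_one_iff_commute]
    rfl
  show (x : G ⧸ D) ∈ Subgroup.center (G ⧸ D) ↔ _
  rw [Subgroup.mem_center_iff]
  constructor
  · intro h g
    exact (key x g).2 (h (g : G ⧸ D)).symm
  · intro h y
    obtain ⟨g, rfl⟩ := QuotientGroup.mk_surjective y
    exact ((key x g).1 (h g)).symm

lemma lc_le_normalClosure (s : Set G) (hs : Subgroup.closure s = ⊤) (n : ℕ) :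
    lc G n ≤ Subgroup.normalClosure (comms s n) := by
  induction n with
  | zero =>
    show (⊤ : Subgroup G) ≤ Subgroup.normalClosure s
    rw [← hs]
    exact Subgroup.closure_le_normalClosure
  | succ n ih =>
    show ⁅lc G n, (⊤ : Subgroup G)⁆ ≤ _
    rw [Subgroup.commutator_le]
    intro p hp q _
    have h1 : Subgroup.normalClosure (comms s n) ≤
        cenMod (Subgroup.normalClosure (comms s (n + 1))) := by
      apply Subgroup.normalClosure_le_normal
      intro w hw
      show w ∈ cenMod (Subgroup.normalClosure (comms s (n + 1)))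
      rw [mem_cenMod]
      apply central_of_gen s hs
      intro y hy
      exact Subgroup.subset_normalClosure ⟨(w, y), ⟨hw, hy⟩, rfl⟩
    exact mem_cenMod.1 (h1 (ih hp)) q

lemma CSer.add_finset {H : Subgroup G} (hH : CSer H) (F : Finset G)
    (hF : ∀ w ∈ F, ∀ g, ⁅w, g⁆ ∈ H) : CSer (H ⊔ Subgroup.closure (F : Set G)) := by
  classical
  induction F using Finset.induction_on with
  | empty =>
    rw [Finset.coe_empty, Subgroup.closure_empty, sup_bot_eq]
    exact hH
  | insert a F _ ih =>
    have h1 := CSer.step _ a (ih fun w hw => hF w (Finset.mem_insert_of_mem hw))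
      (fun g => Subgroup.mem_sup_left (hF a (Finset.mem_insert_self a F) g))
    have h2 : H ⊔ Subgroup.closure ((insert a F : Finset G) : Set G) =
        H ⊔ Subgroup.closure (F : Set G) ⊔ Subgroup.zpowers a := by
      rw [Finset.coe_insert, Set.insert_eq, Subgroup.closure_union,
        ← Subgroup.zpowers_eq_closure, sup_comm (Subgroup.zpowers a), sup_assoc]
    rw [h2]
    exact h1

lemma cser_of_nilpotent (hG : Group.FG G) (c : ℕ) (hc : lc G c = ⊥) :
    CSer (⊤ : Subgroup G) := by
  classical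
  obtain ⟨s, hs⟩ := Group.fg_def.1 hG
  have key : ∀ j n, n + j = c → CSer (lc G n) := by
    intro j
    induction j with
    | zero =>
      intro n hn
      rw [add_zero] at hn
      rw [hn, hc]
      exact CSer.bot
    | succ j ih =>
      intro n hn
      have h1 := ih (n + 1) (by omega)
      have hfin := comms_finite (s : Set G) s.finite_toSet n
      have h2 := h1.add_finset hfin.toFinset (by
        intro w hw g
        rw [Set.Finite.mem_toFinset] at hw
        exact Subgroup.commutator_mem_commutator (comms_mem _ n hw) (Subgroup.mem_top g))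
      rw [Set.Finite.coe_toFinset] at h2
      have h3 : lc G n = lc G (n + 1) ⊔ Subgroup.closure (comms (s : Set G) n) := by
        apply le_antisymm
        · refine (lc_le_normalClosure _ hs n).trans ?_
          have := h2.normal
          apply Subgroup.normalClosure_le_normal
          intro w hw
          exact Subgroup.mem_sup_right (Subgroup.subset_closure hw)
        · refine sup_le (Subgroup.lowerCentralSeries_antitone _ (Nat.le_succ n)) ?_
          rw [Subgroup.closure_le]
          exact comms_mem _ n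
      rw [h3]
      exact h2
  exact key c 0 (by omega)

/-- groups with a central series with cyclic factors satisfy the maximal condition -/
lemma cser_chain {H : Subgroup G} (hH : CSer H) : ∀ L : ℕ → Subgroup G, Monotone L →
    (∀ n, L n ≤ H) → ∃ n, ∀ m, n ≤ m → L m = L n := by
  induction hH with
  | bot =>
    intro L _ hle
    exact ⟨0, fun m _ => by rw [le_bot_iff.1 (hle m), le_bot_iff.1 (hle 0)]⟩
  | step H t hH _ ih =>
    intro L hL hle
    have hn := hH.normal
    obtain ⟨n1, h1⟩ := ih (fun n => L n ⊓ H) (fun i j hij => inf_le_inf_right _ (hL hij))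
      (fun n => inf_le_right)
    let E : ℕ → AddSubgroup ℤ := fun n =>
      { carrier := {a | ∃ h ∈ H, h * t ^ a ∈ L n}
        zero_mem' := ⟨1, one_mem _, by rw [zpow_zero, mul_one]; exact one_mem _⟩
        add_mem' := by
          rintro a b ⟨h, hh, h2⟩ ⟨h', hh', h3⟩
          refine ⟨h * (t ^ a * h' * (t ^ a)⁻¹), mul_mem hh (hn.conj_mem h' hh' _), ?_⟩
          have h4 : h * (t ^ a * h' * (t ^ a)⁻¹) * t ^ (a + b) =
              (h * t ^ a) * (h' * t ^ b) := by
            rw [zpow_add]; group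
          rw [h4]
          exact mul_mem h2 h3
        neg_mem' := by
          rintro a ⟨h, hh, h2⟩
          refine ⟨(t ^ a)⁻¹ * h⁻¹ * ((t ^ a)⁻¹)⁻¹, hn.conj_mem _ (inv_mem hh) _, ?_⟩
          have h4 : (t ^ a)⁻¹ * h⁻¹ * ((t ^ a)⁻¹)⁻¹ * t ^ (-a) = (h * t ^ a)⁻¹ := by
            rw [zpow_neg]; group
          rw [h4]
          exact inv_mem h2 }
    have hE : ∀ n a, a ∈ E n ↔ ∃ h ∈ H, h * t ^ a ∈ L n := fun n a => Iff.rfl
    obtain ⟨n2, h2⟩ := monotone_stabilizes_iff_noetherian.2 (inferInstance : IsNoetherian ℤ ℤ)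
      ⟨fun n => AddSubgroup.toIntSubmodule (E n), fun i j hij => by
        apply AddSubgroup.toIntSubmodule.monotone
        rintro a ⟨h, hh, h3⟩
        exact ⟨h, hh, hL hij h3⟩⟩
    refine ⟨max n1 n2, fun m hm => le_antisymm ?_ (hL hm)⟩
    have h3 : n1 ≤ m := (le_max_left _ _).trans hm
    have h4 : n2 ≤ m := (le_max_right _ _).trans hm
    intro x hx
    obtain ⟨h, hh, a, rfl⟩ := (mem_sup_zpowers hn).1 (hle m hx)
    have h5 : E n2 = E m := AddSubgroup.toIntSubmodule.injective (h2 m h4)
    have h6 : a ∈ E m := ⟨h, hh, hx⟩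
    rw [← h5, hE] at h6
    obtain ⟨h', hh', h7⟩ := h6
    have h8 : h' * t ^ a ∈ L (max n1 n2) := hL (le_max_right _ _) h7
    have h9 : h * h'⁻¹ ∈ L m ⊓ H := by
      refine ⟨?_, H.mul_mem hh (H.inv_mem hh')⟩
      have := (L m).mul_mem hx ((L m).inv_mem (hL hm h8))
      have h10 : h * t ^ a * (h' * t ^ a)⁻¹ = h * h'⁻¹ := by group
      rwa [h10] at this
    have h10 : L m ⊓ H = L (max n1 n2) ⊓ H := (h1 m h3).trans (h1 _ (le_max_left _ _)).symm
    rw [h10] at h9
    have := mul_mem h9.1 h8
    have h11 : h * h'⁻¹ * (h' * t ^ a) = h * t ^ a := by group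
    rwa [h11] at this

lemma cser_quot (hG : Group.FG G) (c : ℕ) : CSer (⊤ : Subgroup (G ⧸ lc G c)) := by
  have hfg : Group.FG (G ⧸ lc G c) := by
    have := hG
    infer_instance
  refine cser_of_nilpotent hfg c ?_
  have h1 := Subgroup.map_lowerCentralSeries (⊤ : Subgroup G) (QuotientGroup.mk' (lc G c)) c
  rw [Subgroup.map_top_of_surjective _ (QuotientGroup.mk'_surjective _)] at h1
  show (⊤ : Subgroup (G ⧸ lc G c)).lowerCentralSeries c = ⊥
  rw [← h1, eq_bot_iff]
  rintro _ ⟨x, hx, rfl⟩
  exact Subgroup.mem_bot.2 ((QuotientGroup.eq_one_iff x).2 hx)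

lemma chain_over_lc (hG : Group.FG G) (c : ℕ) (L : ℕ → Subgroup G)
    (hmono : Monotone L) (hL : ∀ n, lc G c ≤ L n) : ∃ n, ∀ m, n ≤ m → L m = L n := by
  obtain ⟨n, hn⟩ := cser_chain (cser_quot hG c)
    (fun n => (L n).map (QuotientGroup.mk' (lc G c)))
    (fun i j hij => Subgroup.map_mono (hmono hij)) (fun n => le_top)
  exact ⟨n, fun m hm => Subgroup.map_injective_of_ker_le (QuotientGroup.mk' (lc G c))
      ((QuotientGroup.ker_mk' _).trans_le (hL m)) ((QuotientGroup.ker_mk' _).trans_le (hL n))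
      (hn m hm)⟩

/-- the fibre square of a group over a quotient -/
def fibD (D : Subgroup G) [D.Normal] : Subgroup (G × G) :=
  MonoidHom.eqLocus ((QuotientGroup.mk' D).comp (MonoidHom.fst G G))
    ((QuotientGroup.mk' D).comp (MonoidHom.snd G G))

lemma mem_fibD {D : Subgroup G} [D.Normal] {p : G × G} : p ∈ fibD D ↔ p.1⁻¹ * p.2 ∈ D := by
  show (p.1 : G ⧸ D) = (p.2 : G ⧸ D) ↔ _
  exact QuotientGroup.eq

lemma fibD_fg (hG : Group.FG G) (D : Subgroup G) [D.Normal] (T : Set G) (hT : T.Finite)
    (hTD : T ⊆ D) (hD : D ≤ Subgroup.normalClosure T) : Group.FG (fibD D) := by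
  classical
  obtain ⟨s, hs⟩ := Group.fg_def.1 hG
  rw [Group.fg_iff_subgroup_fg, Subgroup.fg_iff]
  refine ⟨(fun t => (t, t)) '' (s : Set G) ∪ (fun d : G => ((1 : G), d)) '' T, ?_, ?_⟩
  · set U : Set (G × G) := (fun t => (t, t)) '' (s : Set G) ∪
      (fun d : G => ((1 : G), d)) '' T with hU
    apply le_antisymm
    · rw [Subgroup.closure_le]
      rintro p (⟨t, -, rfl⟩ | ⟨d, hd, rfl⟩)
      · show _ ∈ fibD D
        rw [mem_fibD]
        show t⁻¹ * t ∈ _
        rw [inv_mul_cancel]
        exact one_mem _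
      · show _ ∈ fibD D
        rw [mem_fibD]
        show (1 : G)⁻¹ * d ∈ _
        rw [inv_one, one_mul]
        exact hTD hd
    · have hdiag : ∀ g : G, (g, g) ∈ Subgroup.closure U := by
        intro g
        have : (⊤ : Subgroup G) ≤ (Subgroup.closure U).comap
            ((MonoidHom.id G).prod (MonoidHom.id G)) := by
          rw [← hs, Subgroup.closure_le]
          intro x hx
          exact Subgroup.subset_closure (Or.inl ⟨x, hx, rfl⟩)
        exact this (Subgroup.mem_top g)
      let E : Subgroup G := (Subgroup.closure U).comap (MonoidHom.inr G G)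
      have hEm : ∀ d : G, d ∈ E ↔ ((1 : G), d) ∈ Subgroup.closure U := fun d => Iff.rfl
      have hEn : E.Normal := by
        refine ⟨fun d hd g => ?_⟩
        rw [hEm] at hd ⊢
        have := mul_mem (mul_mem (hdiag g) hd) (inv_mem (hdiag g))
        have h2 : ((1 : G), g * d * g⁻¹) = (g, g) * (1, d) * (g, g)⁻¹ := by
          ext
          · simp
          · simp
        rw [h2]
        exact this
      have hle : D ≤ E := by
        refine hD.trans ?_
        apply Subgroup.normalClosure_le_normal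
        intro x hx
        exact Subgroup.subset_closure (Or.inr ⟨x, hx, rfl⟩)
      intro p hp
      rw [mem_fibD] at hp
      have h1 := (hEm _).1 (hle hp)
      have h2 : p = (p.1, p.1) * (1, p.1⁻¹ * p.2) := by
        ext
        · simp
        · simp
      rw [h2]
      exact mul_mem (hdiag _) h1
  · exact (s.finite_toSet.image _).union (hT.image _)

lemma fib_lc_fg (hG : Group.FG G) (c : ℕ) : Group.FG (fibD (lc G c)) := by
  obtain ⟨s, hs⟩ := Group.fg_def.1 hG
  exact fibD_fg hG (lc G c) (comms (s : Set G) c) (comms_finite _ s.finite_toSet c)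
    (comms_mem _ c) (lc_le_normalClosure _ hs c)

end

/-- the module argument, abstract form -/
theorem chain_abs {S : Set (FreeGroup ℕ)} (hS : Small S) {G : Type} [Group G]
    (hV : InVar S G) (D : Subgroup G) [D.Normal] (hfib : Group.FG (fibD D))
    (A : Subgroup G) (hAn : A.Normal)
    (hAD : A ≤ D) (hDA : ∀ d ∈ D, ∀ a ∈ A, d * a = a * d)
    {R : Type} [Ring R] {M : Type} [AddCommGroup M] [Module R M]
    (hnoe : Few2 R M → IsNoetherian R M)
    (e : A → M) (he : Function.Bijective e) (hmul : ∀ a b, e (a * b) = e a + e b)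
    (u : G → R) (hu : ∀ (g : G) (a b : A), (b : G) = g * a * g⁻¹ → e b = u g • e a)
    (hR : ∀ P : AddSubgroup M, (∀ g, ∀ x ∈ P, u g • x ∈ P) → ∀ (r : R), ∀ x ∈ P, r • x ∈ P)
    (N : ℕ → Subgroup G) (hN : ∀ n, (N n).Normal) (hmono : Monotone N)
    (hle : ∀ n, N n ≤ A) : ∃ n, ∀ m, n ≤ m → N m = N n := by
  have he1 : e 1 = 0 := by
    have := hmul 1 1
    rw [mul_one] at this
    exact left_eq_add.1 this
  have heinv : ∀ a, e a⁻¹ = - e a := by
    intro a
    have := hmul a a⁻¹
    rw [mul_inv_cancel, he1] at this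
    exact (neg_eq_of_add_eq_zero_right this.symm).symm
  have few : Few2 R M := by
    rintro ⟨f, hf⟩
    let F : Set ℕ → Subgroup (fibD D) := fun s =>
      { carrier := {p | ∃ a b : A, (a : G) = p.1.1 ∧ (b : G) = p.1.2 ∧ (e a, e b) ∈ f s}
        one_mem' := ⟨1, 1, rfl, rfl, by rw [he1]; exact zero_mem _⟩
        mul_mem' := by
          rintro p q ⟨a, b, h1, h2, h3⟩ ⟨a', b', h1', h2', h3'⟩
          refine ⟨a * a', b * b', ?_, ?_, ?_⟩
          · show (a : G) * a' = p.1.1 * q.1.1
            rw [h1, h1']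
          · show (b : G) * b' = p.1.2 * q.1.2
            rw [h2, h2']
          · rw [hmul, hmul]
            exact add_mem h3 h3'
        inv_mem' := by
          rintro p ⟨a, b, h1, h2, h3⟩
          refine ⟨a⁻¹, b⁻¹, ?_, ?_, ?_⟩
          · show (a : G)⁻¹ = (p.1.1)⁻¹
            rw [h1]
          · show (b : G)⁻¹ = (p.1.2)⁻¹
            rw [h2]
          · rw [heinv, heinv]
            exact neg_mem h3 }
    have hF : ∀ s p, p ∈ F s ↔
        ∃ a b : A, (a : G) = p.1.1 ∧ (b : G) = p.1.2 ∧ (e a, e b) ∈ f s := fun s p => Iff.rfl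
    refine hS.few_normal hfib ((hV.prod hV).subgroup _) F ?_ ?_
    · intro s
      refine ⟨fun p hp g => ?_⟩
      rw [hF] at hp ⊢
      obtain ⟨a, b, h1, h2, h3⟩ := hp
      obtain ⟨⟨g1, g2⟩, hg⟩ := g
      rw [mem_fibD] at hg
      have hg' : g1⁻¹ * g2 ∈ D := hg
      have hb : g2 * b * g2⁻¹ = g1 * b * g1⁻¹ := by
        have h4 := hDA _ hg' b b.2
        calc g2 * b * g2⁻¹ = g1 * ((g1⁻¹ * g2) * b) * g2⁻¹ := by group
          _ = g1 * (b * (g1⁻¹ * g2)) * g2⁻¹ := by rw [h4]
          _ = g1 * b * g1⁻¹ := by group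
      refine ⟨⟨g1 * a * g1⁻¹, hAn.conj_mem a a.2 g1⟩, ⟨g1 * b * g1⁻¹, hAn.conj_mem b b.2 g1⟩,
        ?_, ?_, ?_⟩
      · show g1 * (a : G) * g1⁻¹ = g1 * p.1.1 * g1⁻¹
        rw [h1]
      · show g1 * (b : G) * g1⁻¹ = g2 * p.1.2 * g2⁻¹
        rw [← h2, hb]
      · have e1 := hu g1 a ⟨g1 * a * g1⁻¹, hAn.conj_mem a a.2 g1⟩ rfl
        have e2 := hu g1 b ⟨g1 * b * g1⁻¹, hAn.conj_mem b b.2 g1⟩ rfl
        rw [e1, e2]
        exact (f s).smul_mem (u g1) h3
    · intro s t hst
      have key : ∀ s t, F s = F t → f s ≤ f t := by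
        rintro s t hst ⟨x, y⟩ hxy
        obtain ⟨a, rfl⟩ := he.2 x
        obtain ⟨b, rfl⟩ := he.2 y
        have hab : ((a : G), (b : G)) ∈ fibD D := by
          rw [mem_fibD]
          exact hAD (mul_mem (inv_mem a.2) b.2)
        have h1 : (⟨((a : G), (b : G)), hab⟩ : fibD D) ∈ F s :=
          (hF _ _).2 ⟨a, b, rfl, rfl, hxy⟩
        rw [hst, hF] at h1
        obtain ⟨a', b', h2, h3, h4⟩ := h1
        have h5 : a' = a := Subtype.ext h2
        have h6 : b' = b := Subtype.ext h3
        rwa [h5, h6] at h4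
      exact hf (le_antisymm (key _ _ hst) (key _ _ hst.symm))
  have hn : IsNoetherian R M := hnoe few
  let Q : ℕ → AddSubgroup M := fun n =>
    { carrier := {x | ∃ a : A, (a : G) ∈ N n ∧ e a = x}
      zero_mem' := ⟨1, one_mem _, he1⟩
      add_mem' := by
        rintro _ _ ⟨a, ha, rfl⟩ ⟨b, hb, rfl⟩
        exact ⟨a * b, mul_mem ha hb, hmul a b⟩
      neg_mem' := by
        rintro _ ⟨a, ha, rfl⟩
        exact ⟨a⁻¹, inv_mem ha, heinv a⟩ }
  have hQ : ∀ n x, x ∈ Q n ↔ ∃ a : A, (a : G) ∈ N n ∧ e a = x := fun n x => Iff.rfl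
  let P : ℕ → Submodule R M := fun n =>
    { carrier := Q n
      zero_mem' := zero_mem _
      add_mem' := fun h1 h2 => add_mem h1 h2
      smul_mem' := by
        intro r x hx
        refine hR (Q n) ?_ r x hx
        intro g x hx
        rw [hQ] at hx ⊢
        obtain ⟨a, ha, rfl⟩ := hx
        exact ⟨⟨g * a * g⁻¹, hAn.conj_mem a a.2 g⟩, (hN n).conj_mem a ha g, hu g a _ rfl⟩ }
  have hP : ∀ n x, x ∈ P n ↔ ∃ a : A, (a : G) ∈ N n ∧ e a = x := fun n x => Iff.rfl
  have hPm : Monotone P := by
    intro i j hij x hx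
    rw [hP] at hx ⊢
    obtain ⟨a, ha, rfl⟩ := hx
    exact ⟨a, hmono hij ha, rfl⟩
  obtain ⟨n, hn⟩ := monotone_stabilizes_iff_noetherian.2 hn ⟨P, hPm⟩
  refine ⟨n, fun m hm => le_antisymm ?_ (hmono hm)⟩
  intro x hx
  have h1 : P n = P m := hn m hm
  have h2 : e ⟨x, hle m hx⟩ ∈ P m := (hP _ _).2 ⟨_, hx, rfl⟩
  rw [← h1, hP] at h2
  obtain ⟨a, ha, hae⟩ := h2
  have h3 := he.1 hae
  rw [h3] at ha
  exact ha

/-- chains of normal subgroups inside a normal subgroup of a term of the lower central series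
which this term centralises -/
theorem chain_in_lc {S : Set (FreeGroup ℕ)} (hS : Small S) {G : Type} [Group G]
    (hG : Group.FG G) (hV : InVar S G) (c : ℕ) (A : Subgroup G) (hAn : A.Normal)
    (hAD : A ≤ lc G c) (hDA : ∀ d ∈ lc G c, ∀ a ∈ A, d * a = a * d)
    (N : ℕ → Subgroup G) (hN : ∀ n, (N n).Normal) (hmono : Monotone N)
    (hle : ∀ n, N n ≤ A) : ∃ n, ∀ m, n ≤ m → N m = N n := by
  have hcomm : ∀ a ∈ A, ∀ b ∈ A, a * b = b * a := fun a ha b hb => hDA a (hAD ha) b hb
  let _ : CommGroup A := cg A hcomm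
  let cj : G → A → A := fun g a => ⟨g * a * g⁻¹, hAn.conj_mem a a.2 g⟩
  let ρ₀ : G →* Module.End ℤ (Additive A) :=
    { toFun := fun g =>
        { toFun := fun a => Additive.ofMul (cj g a.toMul)
          map_add' := by
            intro a b
            apply Additive.toMul.injective
            apply Subtype.ext
            show g * ((a.toMul : G) * (b.toMul : G)) * g⁻¹ =
              (g * (a.toMul : G) * g⁻¹) * (g * (b.toMul : G) * g⁻¹)
            group
          map_smul' := by
            intro k a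
            apply Additive.toMul.injective
            apply Subtype.ext
            show g * ((a.toMul : G) ^ k) * g⁻¹ = (g * (a.toMul : G) * g⁻¹) ^ k
            rw [conj_zpow] }
      map_one' := by
        ext a
        show (1 : G) * (a.toMul : G) * (1 : G)⁻¹ = (a.toMul : G)
        group
      map_mul' := by
        intro g h
        ext a
        show (g * h) * (a.toMul : G) * (g * h)⁻¹ = g * (h * (a.toMul : G) * h⁻¹) * g⁻¹
        group }
  have hρ₀ : ∀ g a, ρ₀ g a = Additive.ofMul (cj g a.toMul) := fun g a => rfl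
  have hker : lc G c ≤ ρ₀.ker := by
    intro d hd
    rw [MonoidHom.mem_ker]
    apply LinearMap.ext
    intro a
    rw [hρ₀]
    apply Additive.toMul.injective
    apply Subtype.ext
    show d * (a.toMul : G) * d⁻¹ = (a.toMul : G)
    rw [hDA d hd _ a.toMul.2]
    group
  let ρ : Representation ℤ (G ⧸ lc G c) (Additive A) :=
    QuotientGroup.lift (lc G c) ρ₀ hker
  have hρ : ∀ (g : G) (a : Additive A), ρ (g : G ⧸ lc G c) a =
      Additive.ofMul (cj g a.toMul) := fun g a => rfl
  have hfg : Group.FG (G ⧸ lc G c) := by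
    have := hG
    infer_instance
  refine chain_abs hS hV (lc G c) (fib_lc_fg hG c) A hAn hAD hDA
    (R := MonoidAlgebra ℤ (G ⧸ lc G c)) (M := ρ.asModule) ?_
    (fun a => ρ.asModuleEquiv.symm (Additive.ofMul a)) ?_ ?_
    (fun g => MonoidAlgebra.of ℤ _ (g : G ⧸ lc G c)) ?_ ?_ N hN hmono hle
  · refine module_thm hfg (cser_quot hG c) (MonoidAlgebra.of ℤ (G ⧸ lc G c)) ?_ ρ.asModule
    intro x
    induction x using MonoidAlgebra.induction_on with
    | of g => exact AddSubgroup.subset_closure ⟨g, rfl⟩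
    | add r s hr hs => exact add_mem hr hs
    | smul k r hr => exact zsmul_mem hr k
  · exact ρ.asModuleEquiv.symm.bijective.comp Additive.ofMul.bijective
  · intro a b
    rw [ofMul_mul, map_add]
  · intro g a b hb
    rw [← Representation.asModuleEquiv_symm_map_rho, hρ]
    have : b = cj g a := Subtype.ext hb
    rw [this]
    rfl
  · intro P hP r
    induction r using MonoidAlgebra.induction_on with
    | of g =>
      intro x hx
      obtain ⟨g, rfl⟩ := QuotientGroup.mk_surjective g
      exact hP g x hx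
    | add r s hr hs =>
      intro x hx
      rw [add_smul]
      exact add_mem (hr x hx) (hs x hx)
    | smul k r hr =>
      intro x hx
      have h1 : (k • r) • x = k • (r • x) := by
        rw [smul_assoc]
      rw [h1]
      exact zsmul_mem (hr x hx) k

/-- chains of normal subgroups centralised by a term of the lower central series -/
theorem chain_centralising {S : Set (FreeGroup ℕ)} (hS : Small S) {G : Type} [Group G]
    (hG : Group.FG G) (hV : InVar S G) (c : ℕ) (N : ℕ → Subgroup G) (hN : ∀ n, (N n).Normal)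
    (hmono : Monotone N) (hc : ∀ n, ∀ d ∈ lc G c, ∀ x ∈ N n, d * x = x * d) :
    ∃ n, ∀ m, n ≤ m → N m = N n := by
  have hAn : (lc G c ⊓ Subgroup.centralizer (lc G c : Set G)).Normal :=
    inferInstance
  obtain ⟨n1, h1⟩ := chain_in_lc hS hG hV c
    (lc G c ⊓ Subgroup.centralizer (lc G c : Set G)) hAn inf_le_left
    (fun d hd a ha => (Subgroup.mem_centralizer_iff.1 ha.2 d hd))
    (fun n => N n ⊓ lc G c)
    (fun n => by have := hN n; infer_instance)
    (fun i j hij => inf_le_inf_right _ (hmono hij))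
    (fun n x hx => ⟨hx.2, Subgroup.mem_centralizer_iff.2 fun d hd => hc n d hd x hx.1⟩)
  obtain ⟨n2, h2⟩ := chain_over_lc hG c (fun n => N n ⊔ lc G c)
    (fun i j hij => sup_le_sup_right (hmono hij) _) (fun n => le_sup_right)
  refine ⟨max n1 n2, fun m hm => ?_⟩
  have h3 : n1 ≤ m := (le_max_left _ _).trans hm
  have h4 : n2 ≤ m := (le_max_right _ _).trans hm
  refine eq_of_modular _ _ (lc G c) (hN _) (hmono hm) ?_ ?_
  · have h5 : N m ⊓ lc G c = N (max n1 n2) ⊓ lc G c :=
      (h1 m h3).trans (h1 _ (le_max_left _ _)).symm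
    rw [h5]
    exact inf_le_left
  · have h6 : N m ⊔ lc G c = N (max n1 n2) ⊔ lc G c :=
      (h2 m h4).trans (h2 _ (le_max_right _ _)).symm
    rw [← h6]
    exact le_sup_left

/-- chains of normal subgroups centralised by a term of the lower central series of a subgroup of
finite index -/
theorem chain_virtual {S : Set (FreeGroup ℕ)} (hS : Small S) {G : Type} [Group G]
    (hG : Group.FG G) (hV : InVar S G) (K : Subgroup G) (hK : K.FiniteIndex) (c : ℕ)
    (N : ℕ → Subgroup G) (hN : ∀ n, (N n).Normal) (hmono : Monotone N)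
    (hc : ∀ n, ⁅K.lowerCentralSeries c, N n⁆ = ⊥) :
    ∃ n, ∀ m, n ≤ m → N m = N n := by
  have hKfg : Group.FG K := by
    have := hG
    have := hK
    infer_instance
  obtain ⟨n1, h1⟩ := chain_centralising hS hKfg (hV.subgroup K) c
    (fun n => (N n).subgroupOf K)
    (fun n => by have := hN n; infer_instance)
    (fun i j hij x hx => hmono hij hx) (by
      intro n d hd x hx
      have h2 : (d : G) ∈ K.lowerCentralSeries c := by
        rw [← Subgroup.top_subtype_lowerCentralSeries]
        exact ⟨d, hd, rfl⟩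
      have h3 : ⁅(d : G), (x : G)⁆ ∈ ⁅K.lowerCentralSeries c, N n⁆ :=
        Subgroup.commutator_mem_commutator h2 hx
      rw [hc n, Subgroup.mem_bot, commutatorElement_eq_one_iff_mul_comm] at h3
      exact Subtype.ext h3)
  obtain ⟨n2, h2⟩ := chain_over_finite K hK (fun n => N n ⊔ K)
    (fun i j hij => sup_le_sup_right (hmono hij) _) (fun n => le_sup_right)
  refine ⟨max n1 n2, fun m hm => ?_⟩
  have h3 : n1 ≤ m := (le_max_left _ _).trans hm
  have h4 : n2 ≤ m := (le_max_right _ _).trans hm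
  refine eq_of_modular _ _ K (hN _) (hmono hm) ?_ ?_
  · have h5 : (N m).subgroupOf K = (N (max n1 n2)).subgroupOf K :=
      (h1 m h3).trans (h1 _ (le_max_left _ _)).symm
    rw [Subgroup.subgroupOf_inj] at h5
    rw [h5]
    exact inf_le_left
  · have h6 : N m ⊔ K = N (max n1 n2) ⊔ K :=
      (h2 m h4).trans (h2 _ (le_max_right _ _)).symm
    rw [← h6]
    exact le_sup_left

/-- the chain condition for one layer, relative form -/
theorem chain_layer {S : Set (FreeGroup ℕ)} (hS : Small S) {G : Type} [Group G]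
    (hG : Group.FG G) (hV : InVar S G) (A B : Subgroup G) [A.Normal]
    (K : Subgroup G) (hK : K.FiniteIndex) (c : ℕ)
    (hc : ⁅K.lowerCentralSeries c, B⁆ ≤ A)
    (L : ℕ → Subgroup G) (hL : ∀ n, (L n).Normal) (hmono : Monotone L) (hle : ∀ n, L n ≤ B) :
    ∃ n, ∀ m, n ≤ m → L m ⊔ A = L n ⊔ A := by
  have hfg : Group.FG (G ⧸ A) := by
    have := hG
    infer_instance
  have hKA : (K.map (QuotientGroup.mk' A)).FiniteIndex := by
    refine ⟨fun h0 => hK.index_ne_zero ?_⟩
    have := Subgroup.index_map_dvd K (f := QuotientGroup.mk' A) (QuotientGroup.mk'_surjective A)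
    rw [h0] at this
    exact Nat.eq_zero_of_zero_dvd this
  obtain ⟨n, hn⟩ := chain_virtual hS hfg (hV.quotient A) (K.map (QuotientGroup.mk' A)) hKA c
    (fun n => (L n ⊔ A).map (QuotientGroup.mk' A))
    (fun n => by
      have := hL n
      exact Subgroup.Normal.map inferInstance _ (QuotientGroup.mk'_surjective A))
    (fun i j hij => Subgroup.map_mono (sup_le_sup_right (hmono hij) _)) (by
      intro n
      have h1 : (L n ⊔ A).map (QuotientGroup.mk' A) = (L n).map (QuotientGroup.mk' A) := by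
        rw [Subgroup.map_sup]
        have : A.map (QuotientGroup.mk' A) = ⊥ := by
          rw [Subgroup.map_eq_bot_iff, QuotientGroup.ker_mk']
        rw [this, sup_bot_eq]
      rw [h1, ← Subgroup.map_lowerCentralSeries, ← Subgroup.map_commutator,
        Subgroup.map_eq_bot_iff, QuotientGroup.ker_mk']
      exact (Subgroup.commutator_mono le_rfl (hle n)).trans hc)
  exact ⟨n, fun m hm => Subgroup.map_injective_of_ker_le (QuotientGroup.mk' A)
      ((QuotientGroup.ker_mk' A).trans_le le_sup_right)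
      ((QuotientGroup.ker_mk' A).trans_le le_sup_right) (hn m hm)⟩

/-- the chain condition for several layers -/
theorem chain_layers {S : Set (FreeGroup ℕ)} (hS : Small S) {G : Type} [Group G]
    (hG : Group.FG G) (hV : InVar S G) (N : ℕ → Subgroup G) (hN : ∀ i, (N i).Normal)
    (h0 : N 0 = ⊥) (k : ℕ)
    (hstep : ∀ i < k, ∃ (K : Subgroup G) (c : ℕ), K.FiniteIndex ∧
      ⁅K.lowerCentralSeries c, N (i + 1)⁆ ≤ N i)
    (L : ℕ → Subgroup G) (hL : ∀ n, (L n).Normal) (hmono : Monotone L)
    (hle : ∀ n, L n ≤ N k) : ∃ n, ∀ m, n ≤ m → L m = L n := by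
  induction k generalizing L with
  | zero =>
    have h1 : ∀ n, L n = ⊥ := fun n => le_bot_iff.1 (h0 ▸ hle n)
    exact ⟨0, fun m _ => by rw [h1, h1]⟩
  | succ k ih =>
    obtain ⟨K, c, hK, hc⟩ := hstep k (Nat.lt_succ_self k)
    have := hN k
    obtain ⟨n1, h1⟩ := ih (fun i hi => hstep i (hi.trans (Nat.lt_succ_self k)))
      (fun n => L n ⊓ N k) (fun n => by have := hL n; infer_instance)
      (fun i j hij => inf_le_inf_right _ (hmono hij)) (fun n => inf_le_right)
    obtain ⟨n2, h2⟩ := chain_layer hS hG hV (N k) (N (k + 1)) K hK c hc L hL hmono hle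
    refine ⟨max n1 n2, fun m hm => ?_⟩
    have h3 : n1 ≤ m := (le_max_left _ _).trans hm
    have h4 : n2 ≤ m := (le_max_right _ _).trans hm
    refine eq_of_modular _ _ (N k) (hL _) (hmono hm) ?_ ?_
    · have h5 : L m ⊓ N k = L (max n1 n2) ⊓ N k :=
        (h1 m h3).trans (h1 _ (le_max_left _ _)).symm
      rw [h5]
      exact inf_le_left
    · have h6 : L m ⊔ N k = L (max n1 n2) ⊔ N k :=
        (h2 m h4).trans (h2 _ (le_max_right _ _)).symm
      rw [← h6]
      exact le_sup_left

end Pool.Agent.SmallVar.Nil
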