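import Pool.Agent.Lib.MP_1c3690_al.Nil.Series

set_option autoImplicit false
set_option linter.unusedSectionVars false

namespace Pool.Agent.SmallVar.Nil

open scoped commutatorElement
open Submodule Polynomial

/-! ### transfer between rings with the same action -/

section
variable {R R' : Type} [Ring R] [Ring R']

/-- change of the ring -/
def chSub {E : Type} [AddCommGroup E] [Module R E] [Module R' E]
    (h' : ∀ r' : R', ∃ r : R, ∀ x : E, r' • x = r • x) (A : Submodule R E) : Submodule R' E where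
  carrier := A
  zero_mem' := zero_mem _
  add_mem' := fun ha hb => add_mem ha hb
  smul_mem' := by
    intro r' x hx
    obtain ⟨r, hr⟩ := h' r'
    rw [hr]
    exact A.smul_mem r hx

lemma Few2.change {E : Type} [AddCommGroup E] [Module R E] [Module R' E]
    (h : ∀ r : R, ∃ r' : R', ∀ x : E, r • x = r' • x) (h2 : Few2 R E) : Few2 R' E := by
  rintro ⟨f, hf⟩
  have h' : ∀ r : R, ∃ r' : R', ∀ x : E × E, r • x = r' • x := by
    intro r
    obtain ⟨r', hr⟩ := h r
    refine ⟨r', fun x => ?_⟩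
    apply Prod.ext
    · exact hr _
    · exact hr _
  refine h2 ⟨fun s => chSub h' (f s), fun s t hst => hf ?_⟩
  ext x
  have h3 : x ∈ chSub h' (f s) ↔ x ∈ chSub h' (f t) := by
    have : chSub h' (f s) = chSub h' (f t) := hst
    rw [this]
  exact h3

lemma isNoetherian_change {E : Type} [AddCommGroup E] [Module R E] [Module R' E]
    (h : ∀ r' : R', ∃ r : R, ∀ x : E, r' • x = r • x) (h2 : IsNoetherian R' E) :
    IsNoetherian R E := by
  rw [← monotone_stabilizes_iff_noetherian] at h2 ⊢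
  intro f
  obtain ⟨n, hn⟩ := h2 ⟨fun k => chSub h (f k), fun i j hij => f.monotone hij⟩
  refine ⟨n, fun m hm => ?_⟩
  have h3 : chSub h (f n) = chSub h (f m) := hn m hm
  ext x
  have h4 : x ∈ chSub h (f n) ↔ x ∈ chSub h (f m) := by rw [h3]
  exact h4

end

/-! ### finite rings -/

lemma isNoetherian_of_finite_ring {R : Type} [Ring R] [Finite R] (D : Type) [AddCommGroup D]
    [Module R D] (hD : Few R D) : IsNoetherian R D := by
  revert hD
  have : IsArtinianRing R := inferInstance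
  refine IsSemiprimaryRing.induction ℤ R D
    (P := fun M _ _ _ => Few R M → IsNoetherian R M) ?_ ?_
  · intro M _ _ _ _ _ _ hM
    obtain ⟨F, hF, hess⟩ := hM.exists_essential
    obtain ⟨F', hF'⟩ := exists_isCompl F
    have h1 : F' = ⊥ := by
      rw [Submodule.eq_bot_iff]
      intro x hx
      by_contra hx0
      obtain ⟨z, hz1, hz2, hz3⟩ := hess x hx0
      have h2 : z ∈ F' := (Submodule.span_singleton_le_iff_mem _ _).2 hx hz1
      exact hz3 ((Submodule.disjoint_def.1 hF'.disjoint) z hz2 h2)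
    have h2 : F = ⊤ := by
      have := hF'.sup_eq_top
      rwa [h1, sup_bot_eq] at this
    rw [h2] at hF
    have : Module.Finite R M := ⟨hF⟩
    infer_instance
  · intro M _ _ _ _ N h1 h2 hM
    rw [isNoetherian_iff_submodule_quotient N]
    exact ⟨h1 (hM.of_injective N.subtype N.injective_subtype),
      h2 (hM.of_surjective N.mkQ (Submodule.mkQ_surjective N))⟩

/-! ### the ring generated by a group -/

/-- the modules over rings of characteristic `p` generated by the group, in which the subgroup has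
finite image -/
def SS {Γ : Type} [Group Γ] (p : ℕ) (H : Subgroup Γ) : Prop :=
  ∀ (R : Type) [Ring R] (ρ : Γ →* R), (∀ x, x ∈ AddSubgroup.closure (Set.range ρ)) →
    (p : R) = 0 → (ρ '' (H : Set Γ)).Finite →
    ∀ (D : Type) [AddCommGroup D] [Module R D], Few2 R D → IsNoetherian R D

lemma SS.top {Γ : Type} [Group Γ] (p : ℕ) (hp : p ≠ 0) : SS p (⊤ : Subgroup Γ) := by
  intro R _ ρ hgen hpR hfin D _ _ hD
  have hfin' : (Set.range ρ).Finite := by
    rwa [Subgroup.coe_top, Set.image_univ] at hfin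
  have hF : Module.Finite ℤ R := by
    rw [Module.Finite.iff_addGroup_fg]
    refine ⟨⟨hfin'.toFinset, ?_⟩⟩
    rw [Set.Finite.coe_toFinset]
    exact (AddSubgroup.eq_top_iff' _).2 hgen
  have hT : Module.IsTorsion ℤ R := by
    intro x
    refine ⟨⟨(p : ℤ), mem_nonZeroDivisors_of_ne_zero (by exact_mod_cast hp)⟩, ?_⟩
    show (p : ℤ) • x = 0
    rw [zsmul_eq_mul, Int.cast_natCast, hpR, zero_mul]
  have : Finite R := Module.finite_of_fg_torsion R hT
  exact isNoetherian_of_finite_ring D hD.few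

/-- a power of `t` has central image -/
lemma exists_central {Γ : Type} [Group Γ] (hΓ : Group.FG Γ) {H : Subgroup Γ} (hH : H.Normal)
    {t : Γ} (ht : ∀ g, ⁅t, g⁆ ∈ H) {R : Type} [Ring R] (ρ : Γ →* R)
    (hgen : ∀ x, x ∈ AddSubgroup.closure (Set.range ρ))
    (hfin : (ρ '' (H : Set Γ)).Finite) :
    ∃ m : ℕ, 0 < m ∧ ∀ x : R, ρ (t ^ m) * x = x * ρ (t ^ m) := by
  obtain ⟨s, hs⟩ := Group.fg_def.1 hΓ
  have : Finite (ρ '' (H : Set Γ)) := hfin
  let f : ℕ → (s → (ρ '' (H : Set Γ))) := fun k g =>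
    ⟨ρ ⁅t ^ k, (g : Γ)⁆, ⟨_, comm_pow_mem hH ht k g, rfl⟩⟩
  obtain ⟨k, l, hkl, hf⟩ := Finite.exists_ne_map_eq_of_infinite f
  wlog hlt : k < l generalizing k l
  · exact this l k hkl.symm hf.symm (lt_of_le_of_ne (not_lt.1 hlt) hkl.symm)
  refine ⟨l - k, Nat.sub_pos_of_lt hlt, ?_⟩
  have hg : ∀ g ∈ s, ρ (t ^ (l - k)) * ρ g = ρ g * ρ (t ^ (l - k)) := by
    intro g hg
    have h1 : ρ ⁅t ^ k, g⁆ = ρ ⁅t ^ l, g⁆ := congrArg Subtype.val (congrFun hf ⟨g, hg⟩)
    have h2 : ρ (t ^ k)⁻¹ * ρ ⁅t ^ k, g⁆ * ρ (g * t ^ l) =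
        ρ (t ^ k)⁻¹ * ρ ⁅t ^ l, g⁆ * ρ (g * t ^ l) := by rw [h1]
    rw [← map_mul, ← map_mul, ← map_mul, ← map_mul] at h2
    obtain ⟨d, rfl⟩ := Nat.exists_eq_add_of_lt hlt
    have h3 : k + d + 1 - k = d + 1 := by omega
    rw [h3, ← map_mul, ← map_mul]
    have h4 : (t ^ k)⁻¹ * ⁅t ^ k, g⁆ * (g * t ^ (k + d + 1)) = g * t ^ (d + 1) := by
      rw [commutatorElement_def, add_assoc, pow_add]; group
    have h5 : (t ^ k)⁻¹ * ⁅t ^ (k + d + 1), g⁆ * (g * t ^ (k + d + 1)) =
        t ^ (d + 1) * g := by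
      rw [commutatorElement_def, add_assoc, pow_add]; group
    rw [h4, h5] at h2
    exact h2.symm
  have hall : ∀ g : Γ, ρ (t ^ (l - k)) * ρ g = ρ g * ρ (t ^ (l - k)) := by
    intro g
    have hgc : g ∈ Subgroup.closure (s : Set Γ) := by rw [hs]; trivial
    induction hgc using Subgroup.closure_induction with
    | mem x hx => exact hg x hx
    | one => rw [map_one, mul_one, one_mul]
    | mul x y _ _ hx hy =>
      rw [map_mul, ← mul_assoc, hx, mul_assoc, hy, mul_assoc]
    | inv x _ hx =>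
      have h1 : ρ x⁻¹ * ρ x = 1 := by rw [← map_mul, inv_mul_cancel, map_one]
      have h2 : ρ x * ρ x⁻¹ = 1 := by rw [← map_mul, mul_inv_cancel, map_one]
      calc ρ (t ^ (l - k)) * ρ x⁻¹ = (ρ x⁻¹ * ρ x) * (ρ (t ^ (l - k)) * ρ x⁻¹) := by
            rw [h1, one_mul]
        _ = ρ x⁻¹ * (ρ x * ρ (t ^ (l - k))) * ρ x⁻¹ := by simp only [mul_assoc]
        _ = ρ x⁻¹ * (ρ (t ^ (l - k)) * ρ x) * ρ x⁻¹ := by rw [hx]
        _ = ρ x⁻¹ * ρ (t ^ (l - k)) * (ρ x * ρ x⁻¹) := by simp only [mul_assoc]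
        _ = ρ x⁻¹ * ρ (t ^ (l - k)) := by rw [h2, mul_one]
  intro x
  induction hgen x using AddSubgroup.closure_induction with
  | mem x hx =>
    obtain ⟨g, rfl⟩ := hx
    exact hall g
  | zero => rw [mul_zero, zero_mul]
  | add x y _ _ hx hy => rw [mul_add, add_mul, hx, hy]
  | neg x _ hx => rw [mul_neg, neg_mul, hx]

/-- the image of a ring in the endomorphism ring of a module -/
def imR (R : Type) [Ring R] (E : Type) [AddCommGroup E] [Module R E] :
    Subring (Module.End ℤ E) := (Module.toModuleEnd ℤ (S := R) E).range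

/-- the homomorphism onto the image -/
def imHom (R : Type) [Ring R] (E : Type) [AddCommGroup E] [Module R E] : R →+* imR R E :=
  (Module.toModuleEnd ℤ (S := R) E).rangeRestrict

lemma imHom_smul {R : Type} [Ring R] {E : Type} [AddCommGroup E] [Module R E] (r : R) (x : E) :
    imHom R E r • x = r • x := rfl

lemma imHom_surj (R : Type) [Ring R] (E : Type) [AddCommGroup E] [Module R E] :
    Function.Surjective (imHom R E) := RingHom.rangeRestrict_surjective _

lemma imHom_gen {Γ : Type} [Group Γ] {R : Type} [Ring R] (ρ : Γ →* R)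
    (hgen : ∀ x, x ∈ AddSubgroup.closure (Set.range ρ)) (E : Type) [AddCommGroup E]
    [Module R E] : ∀ x, x ∈ AddSubgroup.closure
      (Set.range (((imHom R E : R →+* imR R E) : R →* imR R E).comp ρ)) := by
  intro x
  obtain ⟨y, rfl⟩ := imHom_surj R E x
  induction hgen y using AddSubgroup.closure_induction with
  | mem y hy =>
    obtain ⟨g, rfl⟩ := hy
    exact AddSubgroup.subset_closure ⟨g, rfl⟩
  | zero => rw [map_zero]; exact zero_mem _
  | add y z _ _ hy hz => rw [map_add]; exact add_mem hy hz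
  | neg y _ hy => rw [map_neg]; exact neg_mem hy

end Pool.Agent.SmallVar.Nil
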