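import Pool.Agent.Lib.MP_1c3690_al.Nil.Module

set_option autoImplicit false
set_option linter.unusedSectionVars false

namespace Pool.Agent.SmallVar.Nil

open scoped commutatorElement
open Submodule Polynomial

lemma finite_image {Γ : Type} [Group Γ] {H : Subgroup Γ} (hH : H.Normal) {t : Γ} {R : Type}
    [Ring R] (ρ : Γ →* R) (hfin : (ρ '' (H : Set Γ)).Finite) {M : ℕ} (hM : 0 < M)
    (ht : ρ (t ^ M) = 1) : (ρ '' ((H ⊔ Subgroup.zpowers t : Subgroup Γ) : Set Γ)).Finite := by
  have h1 : ((fun i : ℕ => ρ (t ^ i)) '' (Finset.range M : Set ℕ)).Finite :=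
    (Finset.finite_toSet _).image _
  refine (Set.Finite.image2 (fun a b => a * b) hfin h1).subset ?_
  rintro _ ⟨x, hx, rfl⟩
  obtain ⟨h, hh, n, rfl⟩ := (mem_sup_zpowers hH).1 hx
  refine Set.mem_image2.2 ⟨ρ h, ⟨h, hh, rfl⟩, ρ (t ^ (n % M).toNat), ⟨(n % M).toNat, ?_, rfl⟩, ?_⟩
  · have h2 : n % M < M := Int.emod_lt_of_pos n (by exact_mod_cast hM)
    have h3 : 0 ≤ n % M := Int.emod_nonneg n (by exact_mod_cast hM.ne')
    rw [Finset.mem_coe, Finset.mem_range]
    omega
  · rw [← map_mul]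
    have h3 : 0 ≤ n % M := Int.emod_nonneg n (by exact_mod_cast hM.ne')
    have h4 : t ^ n = t ^ (n % M).toNat * (t ^ M) ^ (n / M) := by
      rw [← zpow_natCast t ((n % M).toNat), ← zpow_natCast t M, ← zpow_mul, ← zpow_add,
        Int.toNat_of_nonneg h3, Int.emod_add_mul_ediv]
    have h5 : (t ^ M) ^ (n / M) ∈ ρ.ker := zpow_mem (MonoidHom.mem_ker.2 ht) _
    rw [h4, map_mul, map_mul, map_mul, MonoidHom.mem_ker.1 h5, mul_one]

lemma exists_prime_poly (p : ℕ) [Fact p.Prime] (c : (ZMod p)[X]) (hc : c ≠ 0) :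
    ∃ q : (ZMod p)[X], Prime q ∧ ¬ q ∣ c := by
  have h1 : ¬ IsUnit (X * c + 1) := by
    intro h
    have h2 := Polynomial.natDegree_eq_zero_of_isUnit h
    have h3 : (X * c + 1).natDegree = c.natDegree + 1 := by
      rw [← Polynomial.C_1, Polynomial.natDegree_add_C, Polynomial.natDegree_X_mul hc]
    omega
  have h0 : X * c + 1 ≠ 0 := by
    intro h
    have h4 := congrArg (Polynomial.eval 0) h
    simp at h4
  obtain ⟨q, hq, hqd⟩ := WfDvdMonoid.exists_irreducible_factor h1 h0
  refine ⟨q, hq.prime, fun h => hq.not_isUnit ?_⟩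
  exact isUnit_of_dvd_one ((dvd_add_right (h.mul_left X)).1 hqd)

/-- in the module killed by a polynomial, a power of the variable acts trivially -/
lemma exists_pow_sub (p : ℕ) [Fact p.Prime] (q : (ZMod p)[X]) (hq : q ≠ 0) :
    ∃ a b : ℕ, a < b ∧ q ∣ X ^ b - X ^ a := by
  have hf : Module.Finite (ZMod p) (AdjoinRoot q) := (AdjoinRoot.powerBasis hq).finite
  have hfin : Finite (AdjoinRoot q) := Module.finite_of_finite (ZMod p)
  obtain ⟨a, b, hab, h⟩ := Finite.exists_ne_map_eq_of_infinite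
    (fun k : ℕ => (AdjoinRoot.mk q (X ^ k) : AdjoinRoot q))
  wlog hlt : a < b generalizing a b
  · exact this b a hab.symm h.symm (lt_of_le_of_ne (not_lt.1 hlt) hab.symm)
  refine ⟨a, b, hlt, ?_⟩
  rw [← AdjoinRoot.mk_eq_mk]
  exact h.symm

theorem SS.step {Γ : Type} [Group Γ] (hΓ : Group.FG Γ) (hser : CSer (⊤ : Subgroup Γ)) (p : ℕ)
    (hp : p.Prime) {H : Subgroup Γ} (hH : H.Normal) {t : Γ} (ht : ∀ g, ⁅t, g⁆ ∈ H)
    (hS : SS p (H ⊔ Subgroup.zpowers t)) : SS p H := by
  intro R _ ρ hgen hpR hfin D _ _ hD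
  rcases subsingleton_or_nontrivial R with hR | hR
  · have : Subsingleton D := ⟨fun a b => by
      rw [← one_smul R a, ← one_smul R b, Subsingleton.elim (1 : R) 0, zero_smul, zero_smul]⟩
    infer_instance
  have hpf : Fact p.Prime := ⟨hp⟩
  have hch : CharP R p := (CharP.charP_iff_prime_eq_zero hp).2 hpR
  let _ : Algebra (ZMod p) R := ZMod.algebra R p
  obtain ⟨m, hm, hcen⟩ := exists_central hΓ hH ht ρ hgen hfin
  let ev : (ZMod p)[X] →+* R := (Polynomial.aeval (ρ (t ^ m))).toRingHom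
  have hevX : ev X = ρ (t ^ m) := Polynomial.aeval_X _
  have hev : ∀ c x, ev c * x = x * ev c := by
    intro c x
    induction c using Polynomial.induction_on' with
    | add a b ha hb => rw [map_add, add_mul, mul_add, ha, hb]
    | monomial n a =>
      have h1 : ev (monomial n a) = algebraMap (ZMod p) R a * (ρ (t ^ m)) ^ n :=
        Polynomial.aeval_monomial _
      have h2 : Commute (ρ (t ^ m)) x := hcen x
      rw [h1, mul_assoc, (h2.pow_left n).eq, ← mul_assoc, ← mul_assoc, Algebra.commutes]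
  let _ : Algebra (ZMod p)[X] R := ev.toAlgebra' hev
  have halg : ∀ c : (ZMod p)[X], algebraMap (ZMod p)[X] R c = ev c := fun c => rfl
  let _ : Module (ZMod p)[X] D := Module.compHom D ev
  have hst : IsScalarTower (ZMod p)[X] R D := ⟨fun o r x => by
    show (ev o * r) • x = ev o • (r • x)
    rw [mul_smul]⟩
  obtain ⟨hn, hh⟩ := nice_of_cser (O := (ZMod p)[X]) ρ hser (fun x => by
    have h1 : AddSubgroup.closure (Set.range ρ) ≤
        (Algebra.adjoin (ZMod p)[X] (Set.range ρ)).toSubring.toAddSubgroup := by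
      rw [AddSubgroup.closure_le]
      intro y hy
      exact Algebra.subset_adjoin hy
    exact h1 (hgen x))
  refine isNoetherian_of_star (O := (ZMod p)[X]) hh ?_ (exists_prime_poly p) D hD
  intro E _ _ _ _ q hq hqE hE2
  obtain ⟨a, b, hab, hdvd⟩ := exists_pow_sub p q hq.ne_zero
  let r : R →* imR R E := (imHom R E : R →* imR R E)
  have hr : ∀ (y : R) (x : E), r y • x = y • x := fun y x => rfl
  have hrs : Function.Surjective r := imHom_surj R E
  have hz : r (ρ (t ^ (m * b))) = r (ρ (t ^ (m * a))) := by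
    apply Subtype.ext
    apply LinearMap.ext
    intro x
    show ρ (t ^ (m * b)) • x = ρ (t ^ (m * a)) • x
    obtain ⟨d, hd⟩ := hdvd
    have h1 : (X ^ b - X ^ a : (ZMod p)[X]) • x = 0 := by
      rw [hd, mul_comm, mul_smul, hqE, smul_zero]
    rw [sub_smul, sub_eq_zero] at h1
    have h2 : ∀ k : ℕ, (X ^ k : (ZMod p)[X]) • x = ρ (t ^ (m * k)) • x := by
      intro k
      rw [← algebraMap_smul R (X ^ k : (ZMod p)[X]) x, halg, map_pow, hevX, ← map_pow, ← pow_mul]
    rwa [h2, h2] at h1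
  have hfin1 : ((r.comp ρ) '' (H : Set Γ)).Finite := by
    have : (r.comp ρ) '' (H : Set Γ) = r '' (ρ '' (H : Set Γ)) := by
      rw [← Set.image_comp]; rfl
    rw [this]
    exact hfin.image _
  have hone : (r.comp ρ) (t ^ (m * (b - a))) = 1 := by
    obtain ⟨d, rfl⟩ := Nat.exists_eq_add_of_lt hab
    have h3 : a + d + 1 - a = d + 1 := by omega
    have h4 : t ^ (m * (d + 1)) = (t ^ (m * a))⁻¹ * t ^ (m * (a + d + 1)) := by
      rw [add_assoc, mul_add m a, pow_add]; group
    have h5 : (r.comp ρ) (t ^ (m * (a + d + 1))) = (r.comp ρ) (t ^ (m * a)) := hz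
    rw [h3, h4, map_mul, h5, ← map_mul, inv_mul_cancel, map_one]
  have hfin2 := finite_image hH (r.comp ρ) hfin1
    (Nat.mul_pos hm (Nat.sub_pos_of_lt hab)) hone
  have hgen' : ∀ x, x ∈ AddSubgroup.closure (Set.range (r.comp ρ)) := imHom_gen ρ hgen E
  have hp0 : ((p : ℕ) : imR R E) = 0 := by
    rw [← map_natCast (imHom R E) p, hpR, map_zero]
  have h6 : IsNoetherian (imR R E) E := hS (imR R E) (r.comp ρ) hgen' hp0 hfin2 E
    (hE2.change fun y => ⟨r y, fun x => (hr y x).symm⟩)
  exact isNoetherian_change (fun y => by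
    obtain ⟨z, rfl⟩ := hrs y
    exact ⟨z, fun x => hr z x⟩) h6

theorem SS.bot {Γ : Type} [Group Γ] (hΓ : Group.FG Γ) (hser : CSer (⊤ : Subgroup Γ)) (p : ℕ)
    (hp : p.Prime) : SS p (⊥ : Subgroup Γ) := by
  have key : ∀ H : Subgroup Γ, CSer H → SS p H → SS p (⊥ : Subgroup Γ) := by
    intro H hH
    induction hH with
    | bot => exact id
    | step H t hH ht ih => exact fun h => ih (SS.step hΓ hser p hp hH.normal ht h)
  exact key ⊤ hser (SS.top p hp.ne_zero)

/-- the module theorem -/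
theorem module_thm {Γ : Type} [Group Γ] (hΓ : Group.FG Γ) (hser : CSer (⊤ : Subgroup Γ))
    {R : Type} [Ring R] (ρ : Γ →* R) (hgen : ∀ x, x ∈ AddSubgroup.closure (Set.range ρ))
    (D : Type) [AddCommGroup D] [Module R D] (hD : Few2 R D) : IsNoetherian R D := by
  obtain ⟨hn, hh⟩ := nice_of_cser (O := ℤ) ρ hser (fun x => by
    have h1 : AddSubgroup.closure (Set.range ρ) ≤
        (Algebra.adjoin ℤ (Set.range ρ)).toSubring.toAddSubgroup := by
      rw [AddSubgroup.closure_le]
      intro y hy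
      exact Algebra.subset_adjoin hy
    exact h1 (hgen x))
  refine isNoetherian_of_star (O := ℤ) hh ?_ ?_ D hD
  · intro E _ iZ iR iT q hq hqE hE2
    obtain rfl : iZ = AddCommGroup.toIntModule E := Subsingleton.elim _ _
    let r : R →* imR R E := (imHom R E : R →* imR R E)
    have hr : ∀ (y : R) (x : E), r y • x = y • x := fun y x => rfl
    have hrs : Function.Surjective r := imHom_surj R E
    have hp : q.natAbs.Prime := Int.prime_iff_natAbs_prime.1 hq
    have hgen' : ∀ x, x ∈ AddSubgroup.closure (Set.range (r.comp ρ)) := imHom_gen ρ hgen E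
    have hp0 : ((q.natAbs : ℕ) : imR R E) = 0 := by
      apply Subtype.ext
      apply LinearMap.ext
      intro x
      show ((q.natAbs : ℕ) : Module.End ℤ E) x = 0
      rw [Module.End.natCast_apply]
      have h1 : (q.natAbs : ℤ) • x = 0 := by
        rcases Int.natAbs_eq q with h | h
        · rw [← h]; exact hqE x
        · rw [← neg_eq_zero, ← neg_smul, ← h]; exact hqE x
      rwa [natCast_zsmul] at h1
    have hfin : ((r.comp ρ) '' ((⊥ : Subgroup Γ) : Set Γ)).Finite := by
      rw [Subgroup.coe_bot]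
      exact (Set.finite_singleton _).image _
    have h6 : IsNoetherian (imR R E) E := SS.bot hΓ hser _ hp (imR R E) (r.comp ρ) hgen' hp0
      hfin E (hE2.change fun y => ⟨r y, fun x => (hr y x).symm⟩)
    exact isNoetherian_change (fun y => by
      obtain ⟨z, rfl⟩ := hrs y
      exact ⟨z, fun x => hr z x⟩) h6
  · intro c hc
    obtain ⟨p, hp1, hp2⟩ := Nat.exists_infinite_primes (c.natAbs + 1)
    refine ⟨(p : ℤ), Nat.prime_iff_prime_int.1 hp2, fun h => ?_⟩
    have h1 : p ∣ c.natAbs := Int.natCast_dvd.1 h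
    have h2 := Nat.le_of_dvd (Int.natAbs_pos.2 hc) h1
    omega

end Pool.Agent.SmallVar.Nil
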