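import Pool.Agent.Lib.MP_1c3690_al.Nil.CaseB

set_option autoImplicit false

namespace Pool.Agent.SmallVar.Nil

open Submodule

section
variable {O : Type} [CommRing O] {X : Type} [AddCommGroup X] [Module O X]

/-- the relative form of `Good` for a fixed prime -/
def Rel (c q : O) (A B : Submodule O X) : Prop :=
  (∀ b ∈ B, q • b ∈ A → b ∈ A) ∧
    ((∀ b ∈ B, ∃ b' ∈ B, b - q • b' ∈ A) → ∀ b ∈ B, ∃ k : ℕ, c ^ k • b ∈ A)

/-- the relative form of `Good` -/
def GoodRel (c : O) (A B : Submodule O X) : Prop :=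
  ∀ q : O, Prime q → ¬ q ∣ c → Rel c q A B

lemma GoodRel.good {c : O} (h : GoodRel c (⊥ : Submodule O X) ⊤) : Good c X := by
  intro q hq hqc
  obtain ⟨h1, h2⟩ := h q hq hqc
  refine ⟨fun x hx => (Submodule.mem_bot O).1 (h1 x trivial ((Submodule.mem_bot O).2 hx)), ?_⟩
  intro h3 x
  obtain ⟨k, hk⟩ := h2 (fun b _ => by
    obtain ⟨y, hy⟩ := h3 b
    exact ⟨y, trivial, (Submodule.mem_bot O).2 (by rw [hy, sub_self])⟩) x trivial
  exact ⟨k, (Submodule.mem_bot O).1 hk⟩

lemma GoodRel.mono {c c' : O} {A B : Submodule O X} (h : GoodRel c A B) (hcc : c ∣ c') :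
    GoodRel c' A B := by
  intro q hq hqc
  obtain ⟨h1, h2⟩ := h q hq (fun h3 => hqc (h3.trans hcc))
  refine ⟨h1, fun h3 b hb => ?_⟩
  obtain ⟨k, hk⟩ := h2 h3 b hb
  refine ⟨k, ?_⟩
  obtain ⟨d, rfl⟩ := hcc
  rw [mul_comm, mul_pow, mul_smul]
  exact A.smul_mem _ hk

lemma Rel.refl (c q : O) (A : Submodule O X) : Rel c q A A :=
  ⟨fun b hb _ => hb, fun _ b hb => ⟨0, by rw [pow_zero, one_smul]; exact hb⟩⟩

lemma Rel.trans {c q : O} {A B C : Submodule O X} (hAB : A ≤ B) (hBC : B ≤ C)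
    (h1 : Rel c q A B) (h2 : Rel c q B C) : Rel c q A C := by
  have h3 : ∀ b ∈ C, q • b ∈ A → b ∈ A := fun b hb hq => h1.1 b (h2.1 b hb (hAB hq)) hq
  refine ⟨h3, fun h4 b hb => ?_⟩
  have h5 := h2.2 (fun b hb => by
    obtain ⟨b', hb', h⟩ := h4 b hb
    exact ⟨b', hb', hAB h⟩)
  have h6 := h1.2 (fun b hb => by
    obtain ⟨b', hb', h⟩ := h4 b (hBC hb)
    refine ⟨b', h2.1 b' hb' ?_, h⟩
    have := sub_mem hb (hAB h)
    rwa [sub_sub_cancel] at this)
  obtain ⟨k, hk⟩ := h5 b hb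
  obtain ⟨l, hl⟩ := h6 _ hk
  exact ⟨l + k, by rw [pow_add, mul_smul]; exact hl⟩

lemma GoodRel.trans {c : O} {A B C : Submodule O X} (hAB : A ≤ B) (hBC : B ≤ C)
    (h1 : GoodRel c A B) (h2 : GoodRel c B C) : GoodRel c A C :=
  fun q hq hqc => Rel.trans hAB hBC (h1 q hq hqc) (h2 q hq hqc)

lemma GoodRel.iUnion {c : O} (Q : ℕ → Submodule O X) (hQ : Monotone Q)
    (h : ∀ n, GoodRel c (Q n) (Q (n + 1))) (B : Submodule O X) (hB : ∀ b, b ∈ B ↔ ∃ n, b ∈ Q n) :
    GoodRel c (Q 0) B := by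
  intro q hq hqc
  have key : ∀ i j, i ≤ j → Rel c q (Q i) (Q j) := by
    intro i j hij
    induction j, hij using Nat.le_induction with
    | base => exact Rel.refl _ _ _
    | succ j hj ih => exact Rel.trans (hQ hj) (hQ (Nat.le_succ j)) ih (h j q hq hqc)
  have key2 : ∀ i, ∀ b ∈ B, q • b ∈ Q i → b ∈ Q i := by
    intro i b hb hqb
    obtain ⟨n, hn⟩ := (hB b).1 hb
    exact (key i (max i n) (le_max_left _ _)).1 b (hQ (le_max_right _ _) hn) hqb
  refine ⟨key2 0, fun h4 b hb => ?_⟩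
  obtain ⟨n, hn⟩ := (hB b).1 hb
  refine (key 0 n (Nat.zero_le n)).2 ?_ b hn
  intro b hb
  obtain ⟨b', hb', h5⟩ := h4 b ((hB b).2 ⟨n, hb⟩)
  refine ⟨b', key2 n b' hb' ?_, h5⟩
  have := sub_mem hb (hQ (Nat.zero_le n) h5)
  rwa [sub_sub_cancel] at this

lemma GoodRel.map {c : O} {A B : Submodule O X} (h : GoodRel c A B) (u : X ≃ₗ[O] X) :
    GoodRel c (A.map (u : X →ₗ[O] X)) (B.map (u : X →ₗ[O] X)) := by
  have hm : ∀ (A : Submodule O X) (x : X), u x ∈ A.map (u : X →ₗ[O] X) ↔ x ∈ A := by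
    intro A x
    constructor
    · rintro ⟨y, hy, hxy⟩
      have : y = x := u.injective hxy
      rwa [← this]
    · intro hx
      exact ⟨x, hx, rfl⟩
  intro q hq hqc
  obtain ⟨h1, h2⟩ := h q hq hqc
  constructor
  · rintro _ ⟨b, hb, rfl⟩ h3
    change q • u b ∈ _ at h3
    change u b ∈ _
    rw [← map_smul, hm] at h3
    rw [hm]
    exact h1 b hb h3
  · rintro h3 _ ⟨b, hb, rfl⟩
    obtain ⟨k, hk⟩ := h2 (fun b hb => by
      obtain ⟨_, ⟨b', hb', rfl⟩, h4⟩ := h3 (u b) ((hm _ _).2 hb)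
      change u b - q • u b' ∈ _ at h4
      rw [← map_smul, ← map_sub, hm] at h4
      exact ⟨b', hb', h4⟩) b hb
    refine ⟨k, ?_⟩
    change c ^ k • u b ∈ _
    rw [← map_smul, hm]
    exact hk

lemma GoodRel.sup {c : O} {A B : Submodule O X} (h : GoodRel c (A ⊓ B) B) :
    GoodRel c A (A ⊔ B) := by
  intro q hq hqc
  obtain ⟨h1, h2⟩ := h q hq hqc
  constructor
  · intro w hw h3
    obtain ⟨a, ha, b, hb, rfl⟩ := Submodule.mem_sup.1 hw
    rw [smul_add] at h3
    have h4 : q • b ∈ A := by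
      have := sub_mem h3 (A.smul_mem q ha)
      rwa [add_sub_cancel_left] at this
    exact add_mem ha (h1 b hb ⟨h4, B.smul_mem q hb⟩).1
  · intro h3 w hw
    obtain ⟨a, ha, b, hb, rfl⟩ := Submodule.mem_sup.1 hw
    obtain ⟨k, hk⟩ := h2 (fun v hv => by
      obtain ⟨w', hw', h4⟩ := h3 v (Submodule.mem_sup_right hv)
      obtain ⟨a', ha', b', hb', rfl⟩ := Submodule.mem_sup.1 hw'
      refine ⟨b', hb', ?_, sub_mem hv (B.smul_mem q hb')⟩
      have h5 := add_mem h4 (A.smul_mem q ha')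
      have h6 : v - q • (a' + b') + q • a' = v - q • b' := by rw [smul_add]; abel
      rwa [h6] at h5) b hb
    refine ⟨k, ?_⟩
    rw [smul_add]
    exact add_mem (A.smul_mem _ ha) hk.1

end

section
variable {O : Type} [CommRing O] [IsDomain O] [IsPrincipalIdealRing O]
  {X : Type} [AddCommGroup X] [Module O X]

lemma GoodRel.cyclic (Q : Submodule O X) (x : X) :
    ∃ c : O, c ≠ 0 ∧ GoodRel c Q (Q ⊔ span O {x}) := by
  let I : Ideal O :=
    { carrier := {a | a • x ∈ Q}
      zero_mem' := by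
        show (0 : O) • x ∈ Q
        rw [zero_smul]; exact zero_mem _
      add_mem' := by
        intro a b ha hb
        show (a + b) • x ∈ Q
        rw [add_smul]; exact add_mem ha hb
      smul_mem' := by
        intro a b hb
        show (a • b) • x ∈ Q
        rw [smul_assoc]; exact Q.smul_mem a hb }
  have hI : ∀ a, a ∈ I ↔ a • x ∈ Q := fun a => Iff.rfl
  obtain ⟨d, hd⟩ := IsPrincipalIdealRing.principal I
  have hId : ∀ a, a ∈ I ↔ d ∣ a := by
    intro a
    rw [hd]
    exact Ideal.mem_span_singleton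
  by_cases hd0 : d = 0
  · refine ⟨1, one_ne_zero, fun q hq _ => ?_⟩
    have hI0 : ∀ a : O, a • x ∈ Q → a = 0 := by
      intro a ha
      have := (hId a).1 ((hI a).2 ha)
      rw [hd0] at this
      exact zero_dvd_iff.1 this
    constructor
    · intro b hb h1
      obtain ⟨y, hy, z, hz, rfl⟩ := Submodule.mem_sup.1 hb
      obtain ⟨a, rfl⟩ := Submodule.mem_span_singleton.1 hz
      rw [smul_add] at h1
      have h2 : (q * a) • x ∈ Q := by
        have := sub_mem h1 (Q.smul_mem q hy)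
        rwa [add_sub_cancel_left, ← mul_smul] at this
      have h3 := hI0 _ h2
      rcases mul_eq_zero.1 h3 with h4 | h4
      · exact absurd h4 hq.ne_zero
      · rw [h4, zero_smul, add_zero]; exact hy
    · intro h1
      exfalso
      obtain ⟨b', hb', h2⟩ := h1 x (Submodule.mem_sup_right (Submodule.mem_span_singleton_self x))
      obtain ⟨y, hy, z, hz, rfl⟩ := Submodule.mem_sup.1 hb'
      obtain ⟨a, rfl⟩ := Submodule.mem_span_singleton.1 hz
      have h3 : (1 - q * a) • x ∈ Q := by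
        have h4 := add_mem h2 (Q.smul_mem q hy)
        have h5 : x - q • (y + a • x) + q • y = (1 - q * a) • x := by
          rw [smul_add, sub_smul, one_smul, mul_smul]; abel
        rwa [h5] at h4
      have h4 := hI0 _ h3
      exact hq.not_unit (IsUnit.of_mul_eq_one a (sub_eq_zero.1 h4).symm)
  · refine ⟨d, hd0, fun q hq hqd => ?_⟩
    constructor
    · intro b hb h1
      obtain ⟨y, hy, z, hz, rfl⟩ := Submodule.mem_sup.1 hb
      obtain ⟨a, rfl⟩ := Submodule.mem_span_singleton.1 hz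
      rw [smul_add] at h1
      have h2 : (q * a) • x ∈ Q := by
        have := sub_mem h1 (Q.smul_mem q hy)
        rwa [add_sub_cancel_left, ← mul_smul] at this
      have h3 : d ∣ q * a := (hId _).1 ((hI _).2 h2)
      have hcop : IsCoprime q d := hq.irreducible.coprime_iff_not_dvd.2 hqd
      have h4 : d ∣ a := hcop.symm.dvd_of_dvd_mul_left h3
      exact add_mem hy ((hI a).1 ((hId a).2 h4))
    · intro _ b hb
      obtain ⟨y, hy, z, hz, rfl⟩ := Submodule.mem_sup.1 hb
      obtain ⟨a, rfl⟩ := Submodule.mem_span_singleton.1 hz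
      refine ⟨1, ?_⟩
      rw [pow_one, smul_add, ← mul_smul]
      exact add_mem (Q.smul_mem d hy) ((hI _).1 ((hId _).2 (dvd_mul_right d a)))

lemma GoodRel.of_fg (B : Submodule O X) (hB : B.FG) :
    ∃ c : O, c ≠ 0 ∧ GoodRel c (⊥ : Submodule O X) B := by
  classical
  obtain ⟨s, rfl⟩ := hB
  induction s using Finset.induction_on with
  | empty =>
    refine ⟨1, one_ne_zero, fun q _ _ => ?_⟩
    have : span O ((∅ : Finset X) : Set X) = ⊥ := by simp
    rw [this]
    exact Rel.refl _ _ _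
  | insert a s _ ih =>
    obtain ⟨c, hc, h1⟩ := ih
    obtain ⟨d, hd, h2⟩ := GoodRel.cyclic (span O (s : Set X)) a
    refine ⟨c * d, mul_ne_zero hc hd, ?_⟩
    have h3 : span O ((insert a s : Finset X) : Set X) = span O (s : Set X) ⊔ span O {a} := by
      rw [Finset.coe_insert, Submodule.span_insert, sup_comm]
    rw [h3]
    exact GoodRel.trans bot_le le_sup_left (h1.mono (dvd_mul_right c d))
      (h2.mono (dvd_mul_left d c))

/-- the base case -/
lemma hall_base {R : Type} [Ring R] [Algebra O R]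
    (hs : Function.Surjective (algebraMap O R)) : Hall O R := by
  intro X _ _ _ _ hX
  have h1 : Module.Finite O R := by
    refine Module.Finite.of_surjective (Algebra.linearMap O R) hs
  have h2 : Module.Finite O X := Module.Finite.trans R X
  obtain ⟨c, hc, h3⟩ := GoodRel.of_fg (⊤ : Submodule O X) h2.fg_top
  exact ⟨c, hc, h3.good⟩

lemma noeth_base {R : Type} [Ring R] [Algebra O R]
    (hs : Function.Surjective (algebraMap O R)) : IsNoetherianRing R := by
  have h1 : IsNoetherian O R :=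
    isNoetherian_of_surjective (Algebra.linearMap O R) (LinearMap.range_eq_top.2 hs)
  exact isNoetherian_of_tower O h1

end

end Pool.Agent.SmallVar.Nil
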