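import Pool.Agent.Lib.MP_1c3690_al.Nil.Step2

set_option autoImplicit false
set_option linter.unusedSectionVars false

namespace Pool.Agent.SmallVar.Nil

open scoped commutatorElement

/-- the subgroup is reached by a central series with cyclic factors -/
inductive CSer {Γ : Type} [Group Γ] : Subgroup Γ → Prop
  | bot : CSer ⊥
  | step (H : Subgroup Γ) (t : Γ) : CSer H → (∀ g, ⁅t, g⁆ ∈ H) → CSer (H ⊔ Subgroup.zpowers t)

section
variable {Γ : Type} [Group Γ]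

lemma mem_sup_zpowers {H : Subgroup Γ} (hH : H.Normal) {t x : Γ} :
    x ∈ H ⊔ Subgroup.zpowers t ↔ ∃ h ∈ H, ∃ n : ℤ, h * t ^ n = x := by
  rw [Subgroup.mem_sup_of_normal_left]
  constructor
  · rintro ⟨h, hh, z, ⟨n, rfl⟩, rfl⟩
    exact ⟨h, hh, n, rfl⟩
  · rintro ⟨h, hh, n, rfl⟩
    exact ⟨h, hh, t ^ n, ⟨n, rfl⟩, rfl⟩

lemma normal_sup_zpowers {H : Subgroup Γ} (hH : H.Normal) {t : Γ} (ht : ∀ g, ⁅t, g⁆ ∈ H) :
    (H ⊔ Subgroup.zpowers t).Normal := by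
  refine ⟨fun x hx g => ?_⟩
  obtain ⟨h, hh, n, rfl⟩ := (mem_sup_zpowers hH).1 hx
  have h1 : g * (h * t ^ n) * g⁻¹ = (g * h * g⁻¹) * (g * t * g⁻¹) ^ n := by
    rw [conj_zpow]; group
  rw [h1]
  refine mul_mem (Subgroup.mem_sup_left (hH.conj_mem h hh g)) (zpow_mem ?_ n)
  have h2 : g * t * g⁻¹ = ⁅t, g⁆⁻¹ * t := by
    rw [commutatorElement_def]; group
  rw [h2]
  exact mul_mem (Subgroup.mem_sup_left (inv_mem (ht g)))
    (Subgroup.mem_sup_right (Subgroup.mem_zpowers t))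

lemma CSer.normal {H : Subgroup Γ} (h : CSer H) : H.Normal := by
  induction h with
  | bot => infer_instance
  | step H t _ ht ih => exact normal_sup_zpowers ih ht

lemma comm_pow_mem {H : Subgroup Γ} (hH : H.Normal) {t : Γ} (ht : ∀ g, ⁅t, g⁆ ∈ H) (k : ℕ)
    (g : Γ) : ⁅t ^ k, g⁆ ∈ H := by
  have key : ∀ x y : Γ, ⁅x, y⁆ ∈ H ↔ Commute (x : Γ ⧸ H) (y : Γ ⧸ H) := by
    intro x y
    rw [← QuotientGroup.eq_one_iff, ← commutatorElement_eq_one_iff_commute]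
    rfl
  rw [key]
  have h1 := (key t g).1 (ht g)
  rw [QuotientGroup.mk_pow]
  exact h1.pow_left k

end

section
variable {O : Type} [CommRing O] [IsDomain O] [IsPrincipalIdealRing O]
  {Γ : Type} [Group Γ] {R : Type} [Ring R] [Algebra O R] (ρ : Γ →* R)

/-- the subalgebra generated by a subgroup -/
def AH (O : Type) [CommRing O] [Algebra O R] (H : Subgroup Γ) : Subalgebra O R :=
  Algebra.adjoin O (ρ '' (H : Set Γ))

lemma AH_mono {H K : Subgroup Γ} (h : H ≤ K) : AH ρ O H ≤ AH ρ O K :=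
  Algebra.adjoin_mono (Set.image_mono h)

lemma mem_AH {H : Subgroup Γ} {h : Γ} (hh : h ∈ H) : ρ h ∈ AH ρ O H :=
  Algebra.subset_adjoin ⟨h, hh, rfl⟩

lemma AH_conj {H : Subgroup Γ} (hH : H.Normal) (t : Γ) (r : R) (hr : r ∈ AH ρ O H) :
    ∃ s ∈ AH ρ O H, ρ t * r = s * ρ t := by
  induction hr using Algebra.adjoin_induction with
  | mem x hx =>
    obtain ⟨h, hh, rfl⟩ := hx
    refine ⟨ρ (t * h * t⁻¹), mem_AH ρ (hH.conj_mem h hh t), ?_⟩
    rw [← map_mul, ← map_mul]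
    congr 1
    group
  | algebraMap o =>
    exact ⟨algebraMap O R o, Subalgebra.algebraMap_mem _ o, (Algebra.commutes o _).symm⟩
  | add x y _ _ hx hy =>
    obtain ⟨s, hs, h1⟩ := hx
    obtain ⟨s', hs', h2⟩ := hy
    exact ⟨s + s', add_mem hs hs', by rw [mul_add, add_mul, h1, h2]⟩
  | mul x y _ _ hx hy =>
    obtain ⟨s, hs, h1⟩ := hx
    obtain ⟨s', hs', h2⟩ := hy
    exact ⟨s * s', mul_mem hs hs', by rw [← mul_assoc, h1, mul_assoc, h2, mul_assoc]⟩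

lemma AH_conj' {H : Subgroup Γ} (hH : H.Normal) (t : Γ) (r : R) (hr : r ∈ AH ρ O H) :
    ∃ s ∈ AH ρ O H, r * ρ t = ρ t * s := by
  obtain ⟨s, hs, h1⟩ := AH_conj ρ hH t⁻¹ r hr
  refine ⟨s, hs, ?_⟩
  have h2 : ρ t * (ρ t⁻¹ * r) = r := by
    rw [← mul_assoc, ← map_mul, mul_inv_cancel, map_one, one_mul]
  rw [h1, ← mul_assoc] at h2
  rw [← h2, mul_assoc, ← map_mul, inv_mul_cancel, map_one, mul_one]

lemma ext_AH {H : Subgroup Γ} (hH : H.Normal) (t : Γ) :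
    ∃ v : (AH ρ O (H ⊔ Subgroup.zpowers t))ˣ,
      Ext (Subalgebra.inclusion (AH_mono ρ (O := O)
        (le_sup_left : H ≤ H ⊔ Subgroup.zpowers t))) v := by
  have hmem : ∀ n : ℤ, t ^ n ∈ H ⊔ Subgroup.zpowers t := fun n =>
    Subgroup.mem_sup_right ⟨n, rfl⟩
  have hmemt : t ∈ H ⊔ Subgroup.zpowers t := Subgroup.mem_sup_right (Subgroup.mem_zpowers t)
  let v : (AH ρ O (H ⊔ Subgroup.zpowers t))ˣ :=
    { val := ⟨ρ t, mem_AH ρ hmemt⟩
      inv := ⟨ρ t⁻¹, mem_AH ρ (inv_mem hmemt)⟩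
      val_inv := Subtype.ext (by
        show ρ t * ρ t⁻¹ = 1
        rw [← map_mul, mul_inv_cancel, map_one])
      inv_val := Subtype.ext (by
        show ρ t⁻¹ * ρ t = 1
        rw [← map_mul, inv_mul_cancel, map_one]) }
  have hv : ((v : AH ρ O (H ⊔ Subgroup.zpowers t)) : R) = ρ t := rfl
  have hv' : (((v⁻¹ : (AH ρ O (H ⊔ Subgroup.zpowers t))ˣ) :
      AH ρ O (H ⊔ Subgroup.zpowers t)) : R) = ρ t⁻¹ := rfl
  refine ⟨v, ?_, ?_, ?_⟩
  · rintro ⟨r, hr⟩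
    obtain ⟨s, hs, h1⟩ := AH_conj ρ hH t r hr
    exact ⟨⟨s, hs⟩, Subtype.ext h1⟩
  · rintro ⟨r, hr⟩
    obtain ⟨s, hs, h1⟩ := AH_conj' ρ hH t r hr
    exact ⟨⟨s, hs⟩, Subtype.ext h1⟩
  · rintro ⟨x, hx⟩
    have hx' : x ∈ Algebra.adjoin O (ρ '' ((H ⊔ Subgroup.zpowers t : Subgroup Γ) : Set Γ)) := hx
    let W := Algebra.adjoin O (Set.range (Subalgebra.inclusion (AH_mono ρ (O := O)
        (le_sup_left : H ≤ H ⊔ Subgroup.zpowers t))) ∪ {(v : AH ρ O (H ⊔ Subgroup.zpowers t)),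
          ((v⁻¹ : (AH ρ O (H ⊔ Subgroup.zpowers t))ˣ) : AH ρ O (H ⊔ Subgroup.zpowers t))})
    have hvW : (v : AH ρ O (H ⊔ Subgroup.zpowers t)) ∈ W :=
      Algebra.subset_adjoin (Or.inr (Or.inl rfl))
    have hvW' : ((v⁻¹ : (AH ρ O (H ⊔ Subgroup.zpowers t))ˣ) :
        AH ρ O (H ⊔ Subgroup.zpowers t)) ∈ W :=
      Algebra.subset_adjoin (Or.inr (Or.inr rfl))
    have hzp : ∀ n : ℤ, (⟨ρ (t ^ n), mem_AH ρ (hmem n)⟩ : AH ρ O (H ⊔ Subgroup.zpowers t)) ∈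
        W := by
      intro n
      rcases n with n | n
      · have h1 := pow_mem hvW n
        have h2 : (⟨ρ (t ^ (Int.ofNat n)), mem_AH ρ (hmem _)⟩ :
            AH ρ O (H ⊔ Subgroup.zpowers t)) = (v : AH ρ O (H ⊔ Subgroup.zpowers t)) ^ n := by
          apply Subtype.ext
          show ρ (t ^ (Int.ofNat n)) = (ρ t) ^ n
          rw [← map_pow, Int.ofNat_eq_natCast, zpow_natCast]
        rw [h2]
        exact h1
      · have h1 := pow_mem hvW' (n + 1)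
        have h2 : (⟨ρ (t ^ (Int.negSucc n)), mem_AH ρ (hmem _)⟩ :
            AH ρ O (H ⊔ Subgroup.zpowers t)) =
            ((v⁻¹ : (AH ρ O (H ⊔ Subgroup.zpowers t))ˣ) :
              AH ρ O (H ⊔ Subgroup.zpowers t)) ^ (n + 1) := by
          apply Subtype.ext
          show ρ (t ^ (Int.negSucc n)) = (ρ t⁻¹) ^ (n + 1)
          rw [← map_pow, zpow_negSucc, inv_pow]
        rw [h2]
        exact h1
    show (⟨x, hx⟩ : AH ρ O (H ⊔ Subgroup.zpowers t)) ∈ W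
    induction hx' using Algebra.adjoin_induction with
    | mem x hx' =>
      obtain ⟨g, hg, rfl⟩ := hx'
      obtain ⟨h, hh, n, rfl⟩ := (mem_sup_zpowers hH).1 hg
      have h1 : (⟨ρ h, mem_AH ρ (Subgroup.mem_sup_left hh)⟩ :
          AH ρ O (H ⊔ Subgroup.zpowers t)) ∈ W :=
        Algebra.subset_adjoin (Or.inl ⟨⟨ρ h, mem_AH ρ hh⟩, rfl⟩)
      have h2 := mul_mem h1 (hzp n)
      have h3 : (⟨ρ (h * t ^ n), hx⟩ : AH ρ O (H ⊔ Subgroup.zpowers t)) =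
          ⟨ρ h, mem_AH ρ (Subgroup.mem_sup_left hh)⟩ * ⟨ρ (t ^ n), mem_AH ρ (hmem n)⟩ :=
        Subtype.ext (map_mul ρ h (t ^ n))
      rw [h3]
      exact h2
    | algebraMap o => exact Subalgebra.algebraMap_mem W o
    | add x y hx1 hy1 ih1 ih2 => exact add_mem (ih1 hx1) (ih2 hy1)
    | mul x y hx1 hy1 ih1 ih2 => exact mul_mem (ih1 hx1) (ih2 hy1)

theorem nice_AH {H : Subgroup Γ} (hH : CSer H) :
    IsNoetherianRing (AH ρ O H) ∧ Hall O (AH ρ O H) := by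
  induction hH with
  | bot =>
    have hs : Function.Surjective (algebraMap O (AH ρ O (⊥ : Subgroup Γ))) := by
      rintro ⟨x, hx⟩
      have h1 : ∃ o, algebraMap O R o = x := by
        have hx' : x ∈ Algebra.adjoin O (ρ '' ((⊥ : Subgroup Γ) : Set Γ)) := hx
        induction hx' using Algebra.adjoin_induction with
        | mem x hx' =>
          obtain ⟨g, hg, rfl⟩ := hx'
          have : g = 1 := Subgroup.mem_bot.1 hg
          exact ⟨1, by rw [this, map_one, map_one]⟩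
        | algebraMap o => exact ⟨o, rfl⟩
        | add x y hx1 hy1 ih1 ih2 =>
          obtain ⟨a, rfl⟩ := ih1 hx1
          obtain ⟨b, rfl⟩ := ih2 hy1
          exact ⟨a + b, map_add _ _ _⟩
        | mul x y hx1 hy1 ih1 ih2 =>
          obtain ⟨a, rfl⟩ := ih1 hx1
          obtain ⟨b, rfl⟩ := ih2 hy1
          exact ⟨a * b, map_mul _ _ _⟩
      obtain ⟨o, ho⟩ := h1
      exact ⟨o, Subtype.ext ho⟩
    exact ⟨noeth_base hs, hall_base hs⟩
  | step H t hH _ ih =>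
    obtain ⟨h1, h2⟩ := ih
    obtain ⟨v, hv⟩ := ext_AH ρ (O := O) hH.normal t
    exact ⟨hv.noeth, hv.hall h2⟩

/-- a ring generated by a group with a central series with cyclic factors is Noetherian and
satisfies Hall's lemma -/
theorem nice_of_cser (hΓ : CSer (⊤ : Subgroup Γ))
    (hgen : ∀ x : R, x ∈ Algebra.adjoin O (Set.range ρ)) : IsNoetherianRing R ∧ Hall O R := by
  obtain ⟨h1, h2⟩ := nice_AH ρ (O := O) hΓ
  have hmem : ∀ x : R, x ∈ AH ρ O (⊤ : Subgroup Γ) := by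
    intro x
    have : AH ρ O (⊤ : Subgroup Γ) = Algebra.adjoin O (Set.range ρ) := by
      unfold AH
      rw [Subgroup.coe_top, Set.image_univ]
    rw [this]
    exact hgen x
  have hv : Ext (AH ρ O (⊤ : Subgroup Γ)).val (1 : Rˣ) := by
    refine ⟨fun r => ⟨r, by simp⟩, fun r => ⟨r, by simp⟩, fun x => ?_⟩
    exact Algebra.subset_adjoin (Or.inl ⟨⟨x, hmem x⟩, rfl⟩)
  exact ⟨hv.noeth, hv.hall h2⟩

end

end Pool.Agent.SmallVar.Nil
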