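import Pool.Agent.Lib.MP_1c3690_al.Nil.Rel

set_option autoImplicit false
set_option linter.unusedSectionVars false

namespace Pool.Agent.SmallVar.Nil

open Submodule

/-- the ring `R'` is generated by the image of `R` and a unit which normalises this image -/
structure Ext {O R R' : Type} [CommRing O] [Ring R] [Ring R'] [Algebra O R] [Algebra O R']
    (φ : R →ₐ[O] R') (t : R'ˣ) : Prop where
  h1 : ∀ r : R, ∃ s : R, (t : R') * φ r = φ s * t
  h2 : ∀ r : R, ∃ s : R, φ r * t = t * φ s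
  gen : ∀ x : R', x ∈ Algebra.adjoin O (Set.range φ ∪ {(t : R'), ((t⁻¹ : R'ˣ) : R')})

section
variable {O R R' : Type} [CommRing O] [Ring R] [Ring R'] [Algebra O R] [Algebra O R']
  {φ : R →ₐ[O] R'} {t : R'ˣ}
  {X : Type} [AddCommGroup X] [Module O X] [Module R X] [Module R' X] [IsScalarTower O R X]
  [IsScalarTower O R' X]

lemma Ext.pow (h : Ext φ t) (k : ℕ) (r : R) : ∃ s : R, ((t ^ k : R'ˣ) : R') * φ r =
    φ s * ((t ^ k : R'ˣ) : R') := by
  induction k generalizing r with
  | zero => exact ⟨r, by simp⟩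
  | succ k ih =>
    obtain ⟨s, hs⟩ := ih r
    obtain ⟨s', hs'⟩ := h.h1 s
    refine ⟨s', ?_⟩
    rw [pow_succ', Units.val_mul, mul_assoc, hs, ← mul_assoc, hs', mul_assoc]

lemma Ext.pow' (h : Ext φ t) (k : ℕ) (r : R) : ∃ s : R, φ r * ((t ^ k : R'ˣ) : R') =
    ((t ^ k : R'ˣ) : R') * φ s := by
  induction k generalizing r with
  | zero => exact ⟨r, by simp⟩
  | succ k ih =>
    obtain ⟨s, hs⟩ := h.h2 r
    obtain ⟨s', hs'⟩ := ih s
    refine ⟨s', ?_⟩
    rw [pow_succ', Units.val_mul, ← mul_assoc, hs, mul_assoc, hs', ← mul_assoc]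

/-- the image of a submodule under a power of `t` -/
def tm (h : Ext φ t) (hφ : ∀ (r : R) (x : X), r • x = φ r • x) (k : ℕ) (A : Submodule R X) :
    Submodule R X where
  carrier := {x | ∃ a ∈ A, ((t ^ k : R'ˣ) : R') • a = x}
  zero_mem' := ⟨0, zero_mem _, smul_zero _⟩
  add_mem' := by
    rintro _ _ ⟨a, ha, rfl⟩ ⟨b, hb, rfl⟩
    exact ⟨a + b, add_mem ha hb, smul_add _ _ _⟩
  smul_mem' := by
    rintro r _ ⟨a, ha, rfl⟩
    obtain ⟨s, hs⟩ := h.pow' k r
    exact ⟨s • a, A.smul_mem s ha, by rw [hφ, hφ, ← mul_smul, ← mul_smul, hs]⟩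

/-- the preimage of a submodule under a power of `t` -/
def tc (h : Ext φ t) (hφ : ∀ (r : R) (x : X), r • x = φ r • x) (k : ℕ) (A : Submodule R X) :
    Submodule R X where
  carrier := {x | ((t ^ k : R'ˣ) : R') • x ∈ A}
  zero_mem' := by
    show _ • (0 : X) ∈ A
    rw [smul_zero]; exact zero_mem _
  add_mem' := by
    intro a b ha hb
    show _ • (a + b) ∈ A
    rw [smul_add]; exact add_mem ha hb
  smul_mem' := by
    intro r a ha
    obtain ⟨s, hs⟩ := h.pow k r
    show _ • (r • a) ∈ A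
    rw [hφ, ← mul_smul, hs, mul_smul, ← hφ]
    exact A.smul_mem s ha

variable (h : Ext φ t) (hφ : ∀ (r : R) (x : X), r • x = φ r • x)

lemma mem_tm {k : ℕ} {A : Submodule R X} {x : X} :
    x ∈ tm h hφ k A ↔ ∃ a ∈ A, ((t ^ k : R'ˣ) : R') • a = x := Iff.rfl

lemma mem_tc {k : ℕ} {A : Submodule R X} {x : X} :
    x ∈ tc h hφ k A ↔ ((t ^ k : R'ˣ) : R') • x ∈ A := Iff.rfl

/-- the partial sums of the translates of `X0` -/
def PP (X0 : Submodule R X) : ℕ → Submodule R X
  | 0 => ⊥
  | k + 1 => X0 ⊔ tm h hφ 1 (PP X0 k)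

lemma PP_succ (X0 : Submodule R X) (k : ℕ) :
    PP h hφ X0 (k + 1) = X0 ⊔ tm h hφ 1 (PP h hφ X0 k) := rfl

lemma tm_mono {k : ℕ} {A B : Submodule R X} (hAB : A ≤ B) : tm h hφ k A ≤ tm h hφ k B := by
  rintro _ ⟨a, ha, rfl⟩
  exact ⟨a, hAB ha, rfl⟩

lemma PP_mono (X0 : Submodule R X) : Monotone (PP h hφ X0) := by
  apply monotone_nat_of_le_succ
  intro n
  induction n with
  | zero => exact bot_le
  | succ n ih => exact sup_le_sup_left (tm_mono h hφ ih) _

lemma tm_PP (X0 : Submodule R X) (j k : ℕ) :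
    tm h hφ j (PP h hφ X0 k) ≤ PP h hφ X0 (k + j) := by
  induction j with
  | zero =>
    rintro _ ⟨a, ha, rfl⟩
    rw [pow_zero, Units.val_one, one_smul]
    exact ha
  | succ j ih =>
    rintro _ ⟨a, ha, rfl⟩
    rw [← add_assoc, PP_succ]
    apply Submodule.mem_sup_right
    refine ⟨((t ^ j : R'ˣ) : R') • a, ih ⟨a, ha, rfl⟩, ?_⟩
    rw [← mul_smul, ← Units.val_mul, ← pow_add, add_comm]

lemma PP_succ' (X0 : Submodule R X) (k : ℕ) :
    PP h hφ X0 (k + 1) = PP h hφ X0 k ⊔ tm h hφ k X0 := by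
  induction k with
  | zero =>
    rw [PP_succ]
    apply le_antisymm
    · refine sup_le ?_ ?_
      · refine le_trans ?_ le_sup_right
        intro x hx
        exact ⟨x, hx, by rw [pow_zero, Units.val_one, one_smul]⟩
      · rintro _ ⟨a, ha, rfl⟩
        have : a = 0 := (Submodule.mem_bot R).1 ha
        rw [this, smul_zero]
        exact zero_mem _
    · refine sup_le bot_le ?_
      rintro _ ⟨a, ha, rfl⟩
      rw [pow_zero, Units.val_one, one_smul]
      exact Submodule.mem_sup_left ha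
  | succ k ih =>
    apply le_antisymm
    · rw [PP_succ]
      refine sup_le ?_ ?_
      · exact le_trans (by rw [PP_succ]; exact le_sup_left) le_sup_left
      · rintro _ ⟨a, ha, rfl⟩
        rw [ih] at ha
        obtain ⟨b, hb, c, ⟨d, hd, rfl⟩, rfl⟩ := Submodule.mem_sup.1 ha
        rw [smul_add]
        refine add_mem (Submodule.mem_sup_left ?_) (Submodule.mem_sup_right ?_)
        · rw [PP_succ]
          exact Submodule.mem_sup_right ⟨b, hb, rfl⟩
        · refine ⟨d, hd, ?_⟩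
          rw [← mul_smul, ← Units.val_mul, ← pow_add, add_comm]
    · refine sup_le (PP_mono h hφ X0 (Nat.le_succ _)) ?_
      rintro _ ⟨a, ha, rfl⟩
      have h1 := tm_PP h hφ X0 (k + 1) 1
      rw [add_comm 1 (k + 1)] at h1
      refine h1 ⟨a, ?_, rfl⟩
      rw [PP_succ]
      exact Submodule.mem_sup_left ha

lemma PP_one (X0 : Submodule R X) : X0 ≤ PP h hφ X0 1 := by
  rw [PP_succ]; exact le_sup_left

lemma PP_fg (X0 : Submodule R X) (h0 : X0.FG) (k : ℕ) : (PP h hφ X0 k).FG := by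
  induction k with
  | zero => exact Submodule.fg_bot
  | succ k ih =>
    rw [PP_succ']
    refine ih.sup ?_
    obtain ⟨s, rfl⟩ := h0
    classical
    refine ⟨s.image fun x => ((t ^ k : R'ˣ) : R') • x, ?_⟩
    apply le_antisymm
    · rw [Submodule.span_le]
      intro y hy
      obtain ⟨x, hx, rfl⟩ := Finset.mem_image.1 (Finset.mem_coe.1 hy)
      exact ⟨x, Submodule.subset_span hx, rfl⟩
    · rintro _ ⟨a, ha, rfl⟩
      have hle : span R (s : Set X) ≤ tc h hφ k
          (span R ((s.image fun x => ((t ^ k : R'ˣ) : R') • x : Finset X) : Set X)) := by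
        rw [Submodule.span_le]
        intro x hx
        exact Submodule.subset_span (Finset.mem_coe.2 (Finset.mem_image.2 ⟨x, hx, rfl⟩))
      exact hle ha

include h hφ in
/-- a submodule over the small ring, closed under `t` and its inverse, is a submodule over the
large ring -/
lemma smul_mem_of_ext (Y : Submodule R X) (hY : ∀ y ∈ Y, (t : R') • y ∈ Y)
    (hY' : ∀ y ∈ Y, ((t⁻¹ : R'ˣ) : R') • y ∈ Y) (a : R') : ∀ y ∈ Y, a • y ∈ Y := by
  induction h.gen a using Algebra.adjoin_induction with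
  | mem a ha =>
    intro y hy
    rcases ha with ⟨r, rfl⟩ | ha
    · rw [← hφ]; exact Y.smul_mem r hy
    · rcases ha with rfl | ha
      · exact hY y hy
      · rw [Set.mem_singleton_iff] at ha
        rw [ha]
        exact hY' y hy
  | algebraMap o =>
    intro y hy
    rw [algebraMap_smul, ← algebraMap_smul R o y]
    exact Y.smul_mem _ hy
  | add a b _ _ ha hb =>
    intro y hy
    rw [add_smul]
    exact add_mem (ha y hy) (hb y hy)
  | mul a b _ _ ha hb =>
    intro y hy
    rw [mul_smul]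
    exact ha _ (hb y hy)

include h hφ in
/-- every element is moved into the partial sums by a power of `t` -/
lemma exists_pow_mem (X0 : Submodule R X)
    (hX : ∀ Y : Submodule R' X, (∀ x ∈ X0, x ∈ Y) → ∀ x, x ∈ Y) (x : X) :
    ∃ j k, ((t ^ j : R'ˣ) : R') • x ∈ PP h hφ X0 k := by
  let W : Submodule R X :=
    { carrier := {x | ∃ j k, ((t ^ j : R'ˣ) : R') • x ∈ PP h hφ X0 k}
      zero_mem' := ⟨0, 0, by rw [smul_zero]; exact zero_mem _⟩
      add_mem' := by
        rintro a b ⟨j, k, ha⟩ ⟨j', k', hb⟩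
        refine ⟨j + j', max (k + j') (k' + j), ?_⟩
        rw [smul_add]
        refine add_mem (PP_mono h hφ X0 (le_max_left _ _) ?_)
          (PP_mono h hφ X0 (le_max_right _ _) ?_)
        · rw [add_comm j j', pow_add, Units.val_mul, mul_smul]
          exact tm_PP h hφ X0 j' k ⟨_, ha, rfl⟩
        · rw [pow_add, Units.val_mul, mul_smul]
          exact tm_PP h hφ X0 j k' ⟨_, hb, rfl⟩
      smul_mem' := by
        rintro r a ⟨j, k, ha⟩
        obtain ⟨s, hs⟩ := h.pow j r
        refine ⟨j, k, ?_⟩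
        rw [hφ, ← mul_smul, hs, mul_smul, ← hφ]
        exact Submodule.smul_mem _ s ha }
  have hW : ∀ x, x ∈ W ↔ ∃ j k, ((t ^ j : R'ˣ) : R') • x ∈ PP h hφ X0 k := fun x => Iff.rfl
  have h1 : ∀ y ∈ W, (t : R') • y ∈ W := by
    intro y hy
    rw [hW] at hy ⊢
    obtain ⟨j, k, hy⟩ := hy
    refine ⟨j, k + 1, ?_⟩
    have h3 := tm_PP h hφ X0 1 k ⟨_, hy, rfl⟩
    rw [pow_one, ← mul_smul, ← Units.val_mul, ← pow_succ'] at h3
    rw [← mul_smul, ← Units.val_mul, ← pow_succ]
    exact h3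
  have h2 : ∀ y ∈ W, ((t⁻¹ : R'ˣ) : R') • y ∈ W := by
    intro y hy
    rw [hW] at hy ⊢
    obtain ⟨j, k, hy⟩ := hy
    refine ⟨j + 1, k, ?_⟩
    rw [← mul_smul, ← Units.val_mul, pow_succ, mul_inv_cancel_right]
    exact hy
  let W' : Submodule R' X :=
    { carrier := W
      zero_mem' := zero_mem _
      add_mem' := fun ha hb => add_mem ha hb
      smul_mem' := fun a y hy => smul_mem_of_ext h hφ W h1 h2 a y hy }
  have h3 : x ∈ W' := hX W' (fun y hy => ⟨0, 1, by
    rw [pow_zero, Units.val_one, one_smul]; exact PP_one h hφ X0 hy⟩) x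
  exact h3

omit [Ring R'] [Algebra O R'] [Module R' X] [IsScalarTower O R' X] [CommRing O] [Algebra O R]
  [Module O X] [IsScalarTower O R X] in
/-- chains below a finitely generated submodule -/
lemma chain_fg [IsNoetherianRing R] (X0 : Submodule R X) (h0 : X0.FG) (L : ℕ → Submodule R X)
    (hL : Monotone L) (hle : ∀ k, L k ≤ X0) : ∃ k0, ∀ k, k0 ≤ k → L k = L k0 := by
  have hn : IsNoetherian R X0 := isNoetherian_of_fg_of_noetherian X0 h0
  obtain ⟨n, hn⟩ := monotone_stabilizes_iff_noetherian.2 hn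
    ⟨fun k => (L k).comap X0.subtype, fun i j hij => Submodule.comap_mono (hL hij)⟩
  refine ⟨n, fun m hm => le_antisymm ?_ (hL hm)⟩
  intro x hx
  have h1 : (L n).comap X0.subtype = (L m).comap X0.subtype := hn m hm
  have h2 : (⟨x, hle m hx⟩ : X0) ∈ (L m).comap X0.subtype := hx
  rw [← h1] at h2
  exact h2

end

end Pool.Agent.SmallVar.Nil
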