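import Pool.Agent.Lib.MP_1c3690_al.Nil.Step

set_option autoImplicit false
set_option linter.unusedSectionVars false

namespace Pool.Agent.SmallVar.Nil

open Submodule

section
variable {O R R' : Type} [CommRing O] [Ring R] [Ring R'] [Algebra O R] [Algebra O R']
  {φ : R →ₐ[O] R'} {t : R'ˣ}
  {X : Type} [AddCommGroup X] [Module O X] [Module R X] [Module R' X] [IsScalarTower O R X]
  [IsScalarTower O R' X]

/-- the Hilbert basis argument -/
theorem Ext.isNoetherian (h : Ext φ t) (hφ : ∀ (r : R) (x : X), r • x = φ r • x)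
    [IsNoetherianRing R] (X0 : Submodule R X) (h0 : X0.FG)
    (hX : ∀ Y : Submodule R' X, (∀ x ∈ X0, x ∈ Y) → ∀ x, x ∈ Y) : IsNoetherian R' X := by
  rw [isNoetherian_def]
  intro Y
  let L : ℕ → Submodule R X := fun k =>
    { carrier := {m | m ∈ X0 ∧ ∃ y ∈ Y, y - ((t ^ k : R'ˣ) : R') • m ∈ PP h hφ X0 k}
      zero_mem' := ⟨zero_mem _, 0, zero_mem _, by rw [smul_zero, sub_zero]; exact zero_mem _⟩
      add_mem' := by
        rintro a b ⟨ha, y, hy, h1⟩ ⟨hb, z, hz, h2⟩
        refine ⟨add_mem ha hb, y + z, add_mem hy hz, ?_⟩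
        have h3 := add_mem h1 h2
        rwa [sub_add_sub_comm, ← smul_add] at h3
      smul_mem' := by
        rintro r a ⟨ha, y, hy, h1⟩
        obtain ⟨s, hs⟩ := h.pow k r
        refine ⟨X0.smul_mem r ha, φ s • y, Y.smul_mem _ hy, ?_⟩
        rw [hφ r a, ← mul_smul, hs, mul_smul, ← smul_sub, ← hφ]
        exact Submodule.smul_mem _ s h1 }
  have hL : ∀ k m, m ∈ L k ↔
      (m ∈ X0 ∧ ∃ y ∈ Y, y - ((t ^ k : R'ˣ) : R') • m ∈ PP h hφ X0 k) := fun k m => Iff.rfl
  have hLm : Monotone L := by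
    apply monotone_nat_of_le_succ
    intro k m hm
    rw [hL] at hm ⊢
    obtain ⟨hm, y, hy, h1⟩ := hm
    refine ⟨hm, (t : R') • y, Y.smul_mem _ hy, ?_⟩
    have h2 := tm_PP h hφ X0 1 k ⟨_, h1, rfl⟩
    rwa [pow_one, smul_sub, ← mul_smul, ← Units.val_mul, ← pow_succ'] at h2
  obtain ⟨k0, hk0⟩ := chain_fg X0 h0 L hLm (fun k m hm => hm.1)
  let YR : Submodule R X :=
    { carrier := Y
      zero_mem' := zero_mem _
      add_mem' := fun ha hb => add_mem ha hb
      smul_mem' := fun r y hy => by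
        rw [hφ]
        exact Y.smul_mem _ hy }
  have hfg : (YR ⊓ PP h hφ X0 (k0 + 1)).FG := by
    have hn : IsNoetherian R (PP h hφ X0 (k0 + 1)) :=
      isNoetherian_of_fg_of_noetherian _ (PP_fg h hφ X0 h0 _)
    exact (isNoetherian_submodule.1 hn) _ inf_le_right
  obtain ⟨s, hs⟩ := hfg
  have hspan : ∀ x, x ∈ YR ⊓ PP h hφ X0 (k0 + 1) → x ∈ span R' (s : Set X) := by
    intro x hx
    rw [← hs] at hx
    induction hx using Submodule.span_induction with
    | mem x hx => exact Submodule.subset_span hx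
    | zero => exact zero_mem _
    | add x y _ _ h1 h2 => exact add_mem h1 h2
    | smul a x _ h1 => rw [hφ]; exact Submodule.smul_mem _ _ h1
  have key : ∀ k, ∀ y ∈ Y, y ∈ PP h hφ X0 k → y ∈ span R' (s : Set X) := by
    intro k
    rcases Nat.le_total k (k0 + 1) with hk | hk
    · intro y hy hyk
      exact hspan y ⟨hy, PP_mono h hφ X0 hk hyk⟩
    · induction k, hk using Nat.le_induction with
      | base => intro y hy hyk; exact hspan y ⟨hy, hyk⟩
      | succ k hk ih =>
        intro y hy hyk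
        rw [PP_succ'] at hyk
        obtain ⟨p, hp, z, ⟨m, hm, rfl⟩, hpz⟩ := Submodule.mem_sup.1 hyk
        have hmL : m ∈ L k := (hL k m).2 ⟨hm, y, hy, by
          rw [← hpz, add_sub_cancel_right]; exact hp⟩
        rw [hk0 k (by omega), hL] at hmL
        obtain ⟨-, y0, hy0, h1⟩ := hmL
        have h2 : y0 ∈ PP h hφ X0 (k0 + 1) := by
          rw [PP_succ']
          refine Submodule.mem_sup.2 ⟨_, h1, ((t ^ k0 : R'ˣ) : R') • m, ⟨m, hm, rfl⟩, ?_⟩
          rw [sub_add_cancel]
        have h3 : y0 ∈ span R' (s : Set X) := hspan y0 ⟨hy0, h2⟩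
        obtain ⟨d, rfl⟩ : ∃ d, k = k0 + d := ⟨k - k0, by omega⟩
        have h4 := tm_PP h hφ X0 d k0 ⟨_, h1, rfl⟩
        rw [smul_sub, ← mul_smul, ← Units.val_mul, ← pow_add, add_comm d k0] at h4
        have h5 : y - ((t ^ d : R'ˣ) : R') • y0 ∈ PP h hφ X0 (k0 + d) := by
          have h6 := sub_mem hp h4
          have h7 : p - (((t ^ d : R'ˣ) : R') • y0 - ((t ^ (k0 + d) : R'ˣ) : R') • m) =
              y - ((t ^ d : R'ˣ) : R') • y0 := by
            rw [← hpz]; abel
          rwa [h7] at h6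
        have h6 := ih _ (sub_mem hy (Y.smul_mem _ hy0)) h5
        have h7 := add_mem h6 ((span R' (s : Set X)).smul_mem ((t ^ d : R'ˣ) : R') h3)
        rwa [sub_add_cancel] at h7
  refine ⟨s, le_antisymm ?_ ?_⟩
  · rw [Submodule.span_le]
    intro x hx
    have h1 : x ∈ YR ⊓ PP h hφ X0 (k0 + 1) := by
      rw [← hs]; exact Submodule.subset_span hx
    exact h1.1
  · intro y hy
    obtain ⟨j, k, hjk⟩ := exists_pow_mem h hφ X0 hX y
    have h1 := key k _ (Y.smul_mem _ hy) hjk
    have h2 := (span R' (s : Set X)).smul_mem (((t ^ j)⁻¹ : R'ˣ) : R') h1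
    rwa [← mul_smul, ← Units.val_mul, inv_mul_cancel, Units.val_one, one_smul] at h2

/-- the ring generated by a Noetherian ring and a normalising unit is Noetherian -/
theorem Ext.noeth (h : Ext φ t) [IsNoetherianRing R] : IsNoetherianRing R' := by
  let _ : Module R R' := Module.compHom R' (φ : R →+* R')
  have hφ : ∀ (r : R) (x : R'), r • x = φ r • x := fun r x => rfl
  have hst : IsScalarTower O R R' := ⟨fun o r x => by
    rw [hφ, hφ, map_smul, smul_assoc]⟩
  refine Ext.isNoetherian h hφ (span R {(1 : R')}) (Submodule.fg_span_singleton _) ?_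
  intro Y hY x
  have h1 := hY 1 (Submodule.mem_span_singleton_self _)
  have h2 := Y.smul_mem x h1
  rwa [smul_eq_mul, mul_one] at h2

omit [Ring R'] [Algebra O R'] [Module R' X] [IsScalarTower O R' X] in
lemma Hall.rel (hH : Hall O R) (A B : Submodule R X) (hB : B.FG) :
    ∃ c : O, c ≠ 0 ∧ GoodRel c (A.restrictScalars O) (B.restrictScalars O) := by
  have hf : Module.Finite R (B ⧸ A.comap B.subtype) := by
    have : Module.Finite R B := Module.Finite.iff_fg.2 hB
    infer_instance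
  obtain ⟨c, hc, hg⟩ := hH (B ⧸ A.comap B.subtype) hf
  refine ⟨c, hc, fun q hq hqc => ?_⟩
  obtain ⟨h1, h2⟩ := hg q hq hqc
  have hmk : ∀ b : B, (Submodule.Quotient.mk b : B ⧸ A.comap B.subtype) = 0 ↔ (b : X) ∈ A := by
    intro b
    rw [Submodule.Quotient.mk_eq_zero]
    exact Iff.rfl
  constructor
  · intro b hb h3
    have h4 := h1 (Submodule.Quotient.mk ⟨b, hb⟩) (by
      rw [← Submodule.Quotient.mk_smul, hmk]
      exact h3)
    rw [hmk] at h4
    exact h4
  · intro h3 b hb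
    obtain ⟨k, hk⟩ := h2 (by
      intro x
      obtain ⟨b, rfl⟩ := Submodule.mkQ_surjective _ x
      obtain ⟨b', hb', h4⟩ := h3 b b.2
      refine ⟨Submodule.Quotient.mk ⟨b', hb'⟩, ?_⟩
      rw [← Submodule.Quotient.mk_smul]
      show _ = Submodule.Quotient.mk b
      rw [eq_comm, ← sub_eq_zero, ← Submodule.Quotient.mk_sub, hmk]
      exact h4) (Submodule.Quotient.mk ⟨b, hb⟩)
    refine ⟨k, ?_⟩
    rw [← Submodule.Quotient.mk_smul, hmk] at hk
    exact hk

/-- multiplication by a unit -/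
def uLin (O : Type) [CommRing O] [Algebra O R'] (X : Type) [AddCommGroup X] [Module O X]
    [Module R' X] [IsScalarTower O R' X] (v : R'ˣ) : X ≃ₗ[O] X where
  toFun x := (v : R') • x
  map_add' := smul_add _
  map_smul' := fun o x => (smul_comm o (v : R') x).symm
  invFun x := ((v⁻¹ : R'ˣ) : R') • x
  left_inv x := by
    show ((v⁻¹ : R'ˣ) : R') • ((v : R') • x) = x
    rw [← mul_smul, ← Units.val_mul, inv_mul_cancel, Units.val_one, one_smul]
  right_inv x := by
    show (v : R') • (((v⁻¹ : R'ˣ) : R') • x) = x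
    rw [← mul_smul, ← Units.val_mul, mul_inv_cancel, Units.val_one, one_smul]

lemma uLin_apply (v : R'ˣ) (x : X) : uLin O X v x = (v : R') • x := rfl

end

/-- Hall's lemma passes to the larger ring -/
theorem Ext.hall {O R R' : Type} [CommRing O] [IsDomain O] [Ring R] [Ring R'] [Algebra O R]
    [Algebra O R'] {φ : R →ₐ[O] R'} {t : R'ˣ} (h : Ext φ t) [IsNoetherianRing R]
    (hH : Hall O R) : Hall O R' := by
  intro X _ _ _ _ hX
  let _ : Module R X := Module.compHom X (φ : R →+* R')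
  have hφ : ∀ (r : R) (x : X), r • x = φ r • x := fun r x => rfl
  have hst : IsScalarTower O R X := ⟨fun o r x => by
    rw [hφ, hφ, map_smul, smul_assoc]⟩
  obtain ⟨s, hs⟩ := hX.fg_top
  obtain ⟨X0, hX0⟩ : ∃ X0 : Submodule R X, X0 = span R (s : Set X) := ⟨_, rfl⟩
  have h0 : X0.FG := ⟨s, hX0.symm⟩
  have hgen : ∀ Y : Submodule R' X, (∀ x ∈ X0, x ∈ Y) → ∀ x, x ∈ Y := by
    intro Y hY x
    have h1 : (⊤ : Submodule R' X) ≤ Y := by
      rw [← hs, Submodule.span_le]
      intro x hx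
      exact hY x (by rw [hX0]; exact Submodule.subset_span hx)
    exact h1 trivial
  let P := PP h hφ X0
  have hPm : Monotone P := PP_mono h hφ X0
  -- the first chain
  let M : ℕ → Submodule R X := fun k => X0 ⊓ tc h hφ k (P k)
  have hMm : Monotone M := by
    apply monotone_nat_of_le_succ
    intro k m hm
    refine ⟨hm.1, ?_⟩
    have h1 : ((t ^ k : R'ˣ) : R') • m ∈ P k := hm.2
    have h2 := tm_PP h hφ X0 1 k ⟨_, h1, rfl⟩
    rw [← mul_smul, ← Units.val_mul, ← pow_add, add_comm 1 k] at h2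
    exact h2
  obtain ⟨k0, hk0⟩ := chain_fg X0 h0 M hMm (fun k => inf_le_left)
  have hMgood : ∀ k, ∃ c : O, c ≠ 0 ∧ GoodRel c ((M k).restrictScalars O)
      (X0.restrictScalars O) := fun k => hH.rel (M k) X0 h0
  choose c hc0 hc using hMgood
  obtain ⟨e, he0, he⟩ : ∃ e : O, e ≠ 0 ∧ ∀ k, GoodRel e ((M k).restrictScalars O)
      (X0.restrictScalars O) := by
    refine ⟨∏ i ∈ Finset.range (k0 + 1), c i, Finset.prod_ne_zero_iff.2 fun i _ => hc0 i, ?_⟩
    intro k
    rcases Nat.le_total k k0 with hk | hk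
    · exact (hc k).mono (Finset.dvd_prod_of_mem _ (Finset.mem_range.2 (by omega)))
    · rw [hk0 k hk]
      exact (hc k0).mono (Finset.dvd_prod_of_mem _ (Finset.mem_range.2 (by omega)))
  have hstep1 : ∀ k, GoodRel e ((P k).restrictScalars O) ((P (k + 1)).restrictScalars O) := by
    intro k
    have h1 := (he k).map (uLin O X (t ^ k))
    have h2 : ((M k).restrictScalars O).map (uLin O X (t ^ k) : X →ₗ[O] X) =
        (P k).restrictScalars O ⊓ (tm h hφ k X0).restrictScalars O := by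
      ext x
      constructor
      · rintro ⟨m, hm, rfl⟩
        exact ⟨hm.2, m, hm.1, rfl⟩
      · rintro ⟨hx, m, hm, rfl⟩
        exact ⟨m, ⟨hm, hx⟩, rfl⟩
    have h3 : (X0.restrictScalars O).map (uLin O X (t ^ k) : X →ₗ[O] X) =
        (tm h hφ k X0).restrictScalars O := by
      ext x
      constructor
      · rintro ⟨m, hm, rfl⟩
        exact ⟨m, hm, rfl⟩
      · rintro ⟨m, hm, rfl⟩
        exact ⟨m, hm, rfl⟩
    rw [h2, h3] at h1
    have h4 := h1.sup
    have h5 : (P k).restrictScalars O ⊔ (tm h hφ k X0).restrictScalars O =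
        (P (k + 1)).restrictScalars O := by
      show _ = (PP h hφ X0 (k + 1)).restrictScalars O
      rw [PP_succ']
      exact (Submodule.restrictScalars_sup O _ _).symm
    rwa [h5] at h4
  -- the union
  obtain ⟨Pi, hPi⟩ : ∃ Pi : Submodule R X, ∀ x, x ∈ Pi ↔ ∃ k, x ∈ P k :=
    ⟨⨆ k, P k, fun x => Submodule.mem_iSup_of_directed P hPm.directed_le⟩
  have hgood1 : GoodRel e (⊥ : Submodule O X) (Pi.restrictScalars O) := by
    have := GoodRel.iUnion (fun k => (P k).restrictScalars O) (fun i j hij => hPm hij) hstep1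
      (Pi.restrictScalars O) (fun b => hPi b)
    have h0 : (P 0).restrictScalars O = ⊥ := by
      show (⊥ : Submodule R X).restrictScalars O = ⊥
      exact Submodule.restrictScalars_bot O R X
    rwa [h0] at this
  -- the second chain
  have hTPi : tm h hφ 1 Pi ≤ Pi := by
    rintro _ ⟨a, ha, rfl⟩
    obtain ⟨k, hk⟩ := (hPi a).1 ha
    exact (hPi _).2 ⟨k + 1, tm_PP h hφ X0 1 k ⟨a, hk, rfl⟩⟩
  have hX0Pi : X0 ≤ Pi := fun x hx => (hPi x).2 ⟨1, PP_one h hφ X0 hx⟩
  have hPieq : (tm h hφ 1 Pi).restrictScalars O ⊔ X0.restrictScalars O =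
      Pi.restrictScalars O := by
    apply le_antisymm
    · exact sup_le (fun x hx => hTPi hx) (fun x hx => hX0Pi hx)
    · intro x hx
      obtain ⟨k, hk⟩ := (hPi x).1 hx
      cases k with
      | zero =>
        have : x = 0 := (Submodule.mem_bot R).1 hk
        rw [this]
        exact zero_mem _
      | succ k =>
        have hk' : x ∈ X0 ⊔ tm h hφ 1 (PP h hφ X0 k) := hk
        obtain ⟨a, ha, b, hb, rfl⟩ := Submodule.mem_sup.1 hk'
        refine Submodule.mem_sup.2 ⟨b, ?_, a, ha, add_comm _ _⟩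
        exact tm_mono h hφ (fun y hy => (hPi y).2 ⟨k, hy⟩) hb
  obtain ⟨d, hd0, hd⟩ := hH.rel (tm h hφ 1 Pi ⊓ X0) X0 h0
  have hd1 : GoodRel d ((tm h hφ 1 Pi).restrictScalars O) (Pi.restrictScalars O) := by
    have h1 : (tm h hφ 1 Pi ⊓ X0).restrictScalars O =
        (tm h hφ 1 Pi).restrictScalars O ⊓ X0.restrictScalars O := by
      ext x
      exact Iff.rfl
    rw [h1] at hd
    have h2 := hd.sup
    rwa [hPieq] at h2
  have hstep2 : ∀ j, GoodRel d ((tc h hφ j Pi).restrictScalars O)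
      ((tc h hφ (j + 1) Pi).restrictScalars O) := by
    intro j
    have h1 := hd1.map (uLin O X (t ^ (j + 1))⁻¹)
    have h2 : ((tm h hφ 1 Pi).restrictScalars O).map (uLin O X (t ^ (j + 1))⁻¹ : X →ₗ[O] X) =
        (tc h hφ j Pi).restrictScalars O := by
      ext x
      constructor
      · rintro ⟨_, ⟨a, ha, rfl⟩, rfl⟩
        show ((t ^ j : R'ˣ) : R') • ((((t ^ (j + 1))⁻¹ : R'ˣ) : R') • (((t ^ 1 : R'ˣ) : R') • a))
          ∈ Pi
        rw [← mul_smul, ← mul_smul, ← Units.val_mul, ← Units.val_mul]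
        have : t ^ j * (t ^ (j + 1))⁻¹ * t ^ 1 = 1 := by group
        rw [this, Units.val_one, one_smul]
        exact ha
      · intro hx
        refine ⟨((t ^ 1 : R'ˣ) : R') • (((t ^ j : R'ˣ) : R') • x), ⟨_, hx, rfl⟩, ?_⟩
        show (((t ^ (j + 1))⁻¹ : R'ˣ) : R') • (((t ^ 1 : R'ˣ) : R') • (((t ^ j : R'ˣ) : R') • x))
          = x
        rw [← mul_smul, ← mul_smul, ← Units.val_mul, ← Units.val_mul]
        have : (t ^ (j + 1))⁻¹ * t ^ 1 * t ^ j = 1 := by group
        rw [this, Units.val_one, one_smul]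
    have h3 : (Pi.restrictScalars O).map (uLin O X (t ^ (j + 1))⁻¹ : X →ₗ[O] X) =
        (tc h hφ (j + 1) Pi).restrictScalars O := by
      ext x
      constructor
      · rintro ⟨a, ha, rfl⟩
        show ((t ^ (j + 1) : R'ˣ) : R') • ((((t ^ (j + 1))⁻¹ : R'ˣ) : R') • a) ∈ Pi
        rw [← mul_smul, ← Units.val_mul, mul_inv_cancel, Units.val_one, one_smul]
        exact ha
      · intro hx
        refine ⟨((t ^ (j + 1) : R'ˣ) : R') • x, hx, ?_⟩
        show (((t ^ (j + 1))⁻¹ : R'ˣ) : R') • (((t ^ (j + 1) : R'ˣ) : R') • x) = x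
        rw [← mul_smul, ← Units.val_mul, inv_mul_cancel, Units.val_one, one_smul]
    rwa [h2, h3] at h1
  have htcm : Monotone fun j => (tc h hφ j Pi).restrictScalars O := by
    apply monotone_nat_of_le_succ
    intro j x hx
    have h1 : ((t ^ j : R'ˣ) : R') • x ∈ Pi := hx
    have h2 := hTPi ⟨_, h1, rfl⟩
    rw [← mul_smul, ← Units.val_mul, ← pow_add, add_comm 1 j] at h2
    exact h2
  have hgood2 : GoodRel d (Pi.restrictScalars O) (⊤ : Submodule O X) := by
    have := GoodRel.iUnion (fun j => (tc h hφ j Pi).restrictScalars O) htcm hstep2 ⊤ (fun b => by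
      constructor
      · intro _
        obtain ⟨j, k, hjk⟩ := exists_pow_mem h hφ X0 hgen b
        exact ⟨j, (hPi _).2 ⟨k, hjk⟩⟩
      · intro _
        trivial)
    have h0 : (tc h hφ 0 Pi).restrictScalars O = Pi.restrictScalars O := by
      ext x
      show ((t ^ 0 : R'ˣ) : R') • x ∈ Pi ↔ x ∈ Pi
      rw [pow_zero, Units.val_one, one_smul]
    rwa [h0] at this
  refine ⟨e * d, mul_ne_zero he0 hd0, GoodRel.good ?_⟩
  exact GoodRel.trans bot_le le_top (hgood1.mono (dvd_mul_right e d))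
    (hgood2.mono (dvd_mul_left d e))

end Pool.Agent.SmallVar.Nil
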